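import Pool.Agent.W232.FC.All

namespace Pool.Agent.W232.FC

open Classical

theorem rad_one : rad 1 = 1 := by simp [rad]

theorem rad_le {n : ℕ} (hn : n ≠ 0) : rad n ≤ n := by
  unfold rad
  exact Nat.le_of_dvd (Nat.pos_of_ne_zero hn) (Nat.prod_primeFactors_dvd n)

theorem rad_pow_le {c k : ℕ} (hc : c ≠ 0) (hk : k ≠ 0) : rad (c ^ k) ≤ c := by
  unfold rad
  rw [Nat.primeFactors_pow c hk]
  exact Nat.le_of_dvd (Nat.pos_of_ne_zero hc) (Nat.prod_primeFactors_dvd c)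

theorem AP_pow {δ : ℝ} {X : ℕ} (hδ : 0 < δ) (hX : 1 ≤ X) (a : ℤ) (m : ℕ) (hm : 2 ≤ m) (e : ℤ)
    (he : e.natAbs = 1) : AP δ X (e * a ^ m) := by
  refine ⟨m, e, a, hm, rfl, ?_⟩
  rw [he, rad_one]
  have : (1 : ℝ) ≤ X := by exact_mod_cast hX
  simpa using Real.one_le_rpow this hδ.le

/-- solutions, up to `X`, of `a^m + b^n = c^k` (exponents at least `2`) with a base at most `Y` -/
def Sol (X : ℕ) (Y : ℝ) : Set (ℕ × ℕ × ℕ) :=
  {t | t.1 + t.2.1 = t.2.2 ∧ t.2.2 ≤ X ∧ ∃ a b c m n k : ℕ, 0 < a ∧ 0 < b ∧ 0 < c ∧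
    2 ≤ m ∧ 2 ≤ n ∧ 2 ≤ k ∧ t = (a ^ m, b ^ n, c ^ k) ∧ ((a : ℝ) ≤ Y ∨ (b : ℝ) ≤ Y ∨ (c : ℝ) ≤ Y)}

theorem box_finite (X : ℕ) : {t : ℕ × ℕ × ℕ | t.1 ≤ X ∧ t.2.1 ≤ X ∧ t.2.2 ≤ X}.Finite := by
  refine Set.Finite.subset ((Set.finite_Iic X).prod ((Set.finite_Iic X).prod (Set.finite_Iic X))) ?_
  rintro ⟨x, y, z⟩ ⟨h1, h2, h3⟩
  exact ⟨h1, h2, h3⟩

theorem Sol_finite (X : ℕ) (Y : ℝ) : (Sol X Y).Finite := by
  refine (box_finite X).subset ?_
  rintro ⟨x, y, z⟩ ⟨h1, h2, -⟩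
  simp only at h1 h2
  exact ⟨by simp only; omega, by simp only; omega, h2⟩

theorem sparse (ε : ℝ) (hε : 0 < ε) : ∃ δ : ℝ, 0 < δ ∧ ∃ X₀ : ℕ, ∀ X : ℕ, X₀ ≤ X →
    ((Sol X ((X : ℝ) ^ δ)).ncard : ℝ) ≤ (X : ℝ) ^ ε := by
  obtain ⟨δ, hδ, X₁, hX₁⟩ := t_GT (ε / 2) (by positivity)
  obtain ⟨X₂, hX₂⟩ := ev_const 3 (ε / 2) (by positivity)
  refine ⟨δ, hδ, X₁ + X₂ + 1, fun X hX => ?_⟩
  have hX1 : 1 ≤ X := by omega
  have h3 := hX₂ X (by omega)
  have hXR : (0 : ℝ) < X := by exact_mod_cast hX1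
  -- three sets of pairs
  set F : Finset (ℕ × ℕ × ℕ) := (Sol_finite X ((X : ℝ) ^ δ)).toFinset with hF
  have hmem : ∀ t ∈ F, t ∈ Sol X ((X : ℝ) ^ δ) := fun t ht => by
    rw [hF, Set.Finite.mem_toFinset] at ht; exact ht
  set s1 : Finset (ℤ × ℤ) := (F.image (fun t : ℕ × ℕ × ℕ => ((t.1 : ℤ), (t.2.1 : ℤ)))).filter
    (fun w => (rad (w.1 + w.2).natAbs : ℝ) ≤ (X : ℝ) ^ δ) with hs1
  set s2 : Finset (ℤ × ℤ) := (F.image (fun t : ℕ × ℕ × ℕ => ((t.2.2 : ℤ), -(t.2.1 : ℤ)))).filter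
    (fun w => (rad (w.1 + w.2).natAbs : ℝ) ≤ (X : ℝ) ^ δ) with hs2
  set s3 : Finset (ℤ × ℤ) := (F.image (fun t : ℕ × ℕ × ℕ => ((t.2.2 : ℤ), -(t.1 : ℤ)))).filter
    (fun w => (rad (w.1 + w.2).natAbs : ℝ) ≤ (X : ℝ) ^ δ) with hs3
  have hb1 : (s1.card : ℝ) ≤ (X : ℝ) ^ (ε / 2) := by
    refine hX₁ X (by omega) s1 ?_
    intro w hw
    rw [hs1, Finset.mem_filter, Finset.mem_image] at hw
    obtain ⟨⟨t, ht, rfl⟩, hr⟩ := hw
    obtain ⟨e1, e2, a, b, c, m, n, k, ha, hb, hc, hm, hn, hk, he, -⟩ := hmem t ht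
    have p1 : t.1 = a ^ m := by rw [he]
    have p2 : t.2.1 = b ^ n := by rw [he]
    have p3 : t.2.2 = c ^ k := by rw [he]
    have q1 : 0 < t.1 := by rw [p1]; positivity
    have q2 : 0 < t.2.1 := by rw [p2]; positivity
    refine ⟨by simp only; omega, by simp only; omega, by simp only; omega, by simp only; omega,
      by simp only; omega, by simp only; omega, hr, ?_, ?_⟩
    · have := AP_pow (X := X) hδ hX1 (a : ℤ) m hm 1 (by simp)
      simpa [p1] using this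
    · have := AP_pow (X := X) hδ hX1 (b : ℤ) n hn 1 (by simp)
      simpa [p2] using this
  have hb2 : (s2.card : ℝ) ≤ (X : ℝ) ^ (ε / 2) := by
    refine hX₁ X (by omega) s2 ?_
    intro w hw
    rw [hs2, Finset.mem_filter, Finset.mem_image] at hw
    obtain ⟨⟨t, ht, rfl⟩, hr⟩ := hw
    obtain ⟨e1, e2, a, b, c, m, n, k, ha, hb, hc, hm, hn, hk, he, -⟩ := hmem t ht
    have p1 : t.1 = a ^ m := by rw [he]
    have p2 : t.2.1 = b ^ n := by rw [he]
    have p3 : t.2.2 = c ^ k := by rw [he]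
    have q1 : 0 < t.1 := by rw [p1]; positivity
    have q2 : 0 < t.2.1 := by rw [p2]; positivity
    refine ⟨by simp only; omega, by simp only; omega, by simp only; omega, by simp only; omega,
      by simp only; omega, by simp only; omega, hr, ?_, ?_⟩
    · have := AP_pow (X := X) hδ hX1 (c : ℤ) k hk 1 (by simp)
      simpa [p3] using this
    · have := AP_pow (X := X) hδ hX1 (b : ℤ) n hn (-1) (by simp)
      simpa [p2] using this
  have hb3 : (s3.card : ℝ) ≤ (X : ℝ) ^ (ε / 2) := by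
    refine hX₁ X (by omega) s3 ?_
    intro w hw
    rw [hs3, Finset.mem_filter, Finset.mem_image] at hw
    obtain ⟨⟨t, ht, rfl⟩, hr⟩ := hw
    obtain ⟨e1, e2, a, b, c, m, n, k, ha, hb, hc, hm, hn, hk, he, -⟩ := hmem t ht
    have p1 : t.1 = a ^ m := by rw [he]
    have p2 : t.2.1 = b ^ n := by rw [he]
    have p3 : t.2.2 = c ^ k := by rw [he]
    have q1 : 0 < t.1 := by rw [p1]; positivity
    have q2 : 0 < t.2.1 := by rw [p2]; positivity
    refine ⟨by simp only; omega, by simp only; omega, by simp only; omega, by simp only; omega,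
      by simp only; omega, by simp only; omega, hr, ?_, ?_⟩
    · have := AP_pow (X := X) hδ hX1 (c : ℤ) k hk 1 (by simp)
      simpa [p3] using this
    · have := AP_pow (X := X) hδ hX1 (a : ℤ) m hm (-1) (by simp)
      simpa [p1] using this
  -- inclusion
  set g1 : ℤ × ℤ → ℕ × ℕ × ℕ := fun w => (w.1.natAbs, w.2.natAbs, (w.1 + w.2).natAbs) with hg1
  set g2 : ℤ × ℤ → ℕ × ℕ × ℕ := fun w => ((w.1 + w.2).natAbs, w.2.natAbs, w.1.natAbs) with hg2
  set g3 : ℤ × ℤ → ℕ × ℕ × ℕ := fun w => (w.2.natAbs, (w.1 + w.2).natAbs, w.1.natAbs) with hg3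
  have hsub : F ⊆ (s1.image g1 ∪ s2.image g2) ∪ s3.image g3 := by
    intro t ht
    obtain ⟨e1, e2, a, b, c, m, n, k, ha, hb, hc, hm, hn, hk, he, hor⟩ := hmem t ht
    have p1 : t.1 = a ^ m := by rw [he]
    have p2 : t.2.1 = b ^ n := by rw [he]
    have p3 : t.2.2 = c ^ k := by rw [he]
    rw [Finset.mem_union, Finset.mem_union]
    rcases hor with h | h | h
    · left; right
      rw [Finset.mem_image]
      refine ⟨((t.2.2 : ℤ), -(t.2.1 : ℤ)), ?_, ?_⟩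
      · rw [hs2, Finset.mem_filter]
        refine ⟨Finset.mem_image_of_mem _ ht, ?_⟩
        have : ((t.2.2 : ℤ) + -(t.2.1 : ℤ)).natAbs = a ^ m := by rw [← p1]; omega
        simp only [this]
        refine le_trans ?_ h
        exact_mod_cast rad_pow_le (by omega) (by omega)
      · rw [hg2]
        refine Prod.ext ?_ (Prod.ext ?_ ?_) <;> simp only <;> omega
    · right
      rw [Finset.mem_image]
      refine ⟨((t.2.2 : ℤ), -(t.1 : ℤ)), ?_, ?_⟩
      · rw [hs3, Finset.mem_filter]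
        refine ⟨Finset.mem_image_of_mem _ ht, ?_⟩
        have : ((t.2.2 : ℤ) + -(t.1 : ℤ)).natAbs = b ^ n := by rw [← p2]; omega
        simp only [this]
        refine le_trans ?_ h
        exact_mod_cast rad_pow_le (by omega) (by omega)
      · rw [hg3]
        refine Prod.ext ?_ (Prod.ext ?_ ?_) <;> simp only <;> omega
    · left; left
      rw [Finset.mem_image]
      refine ⟨((t.1 : ℤ), (t.2.1 : ℤ)), ?_, ?_⟩
      · rw [hs1, Finset.mem_filter]
        refine ⟨Finset.mem_image_of_mem _ ht, ?_⟩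
        have : ((t.1 : ℤ) + (t.2.1 : ℤ)).natAbs = c ^ k := by rw [← p3]; omega
        simp only [this]
        refine le_trans ?_ h
        exact_mod_cast rad_pow_le (by omega) (by omega)
      · rw [hg1]
        refine Prod.ext ?_ (Prod.ext ?_ ?_) <;> simp only <;> omega
  have hcard : F.card ≤ s1.card + s2.card + s3.card := by
    refine (Finset.card_le_card hsub).trans ((Finset.card_union_le _ _).trans ?_)
    refine Nat.add_le_add ((Finset.card_union_le _ _).trans ?_) Finset.card_image_le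
    exact Nat.add_le_add Finset.card_image_le Finset.card_image_le
  rw [Set.ncard_eq_toFinset_card _ (Sol_finite X ((X : ℝ) ^ δ))]
  calc (F.card : ℝ) ≤ (s1.card : ℝ) + s2.card + s3.card := by exact_mod_cast hcard
    _ ≤ 3 * (X : ℝ) ^ (ε / 2) := by linarith
    _ ≤ (X : ℝ) ^ (ε / 2) * (X : ℝ) ^ (ε / 2) := by gcongr
    _ = (X : ℝ) ^ ε := by rw [← Real.rpow_add hXR]; congr 1; ring

/-- exponent version: a solution one of whose exponents is at least `R` has a base at most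
`X^(1/R)` -/
theorem base_of_exp {X R m a : ℕ} {δ : ℝ} (hR : 1 / δ ≤ R) (hδ : 0 < δ) (hm : R ≤ m)
    (ha : 0 < a) (h : a ^ m ≤ X) : (a : ℝ) ≤ (X : ℝ) ^ δ := by
  have hR0 : (0 : ℝ) < R := lt_of_lt_of_le (by positivity) hR
  have h1 : (a : ℝ) ^ R ≤ X := by
    exact_mod_cast (Nat.pow_le_pow_right ha hm).trans h
  have hX1 : (1 : ℝ) ≤ X := by
    have : 1 ≤ a ^ m := Nat.one_le_pow _ _ ha
    exact_mod_cast this.trans h
  have h2 : ((a : ℝ) ^ R) ^ (1 / (R : ℝ)) ≤ (X : ℝ) ^ (1 / (R : ℝ)) :=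
    Real.rpow_le_rpow (by positivity) h1 (by positivity)
  rw [← Real.rpow_natCast, ← Real.rpow_mul (by positivity), mul_one_div_cancel hR0.ne',
    Real.rpow_one] at h2
  refine h2.trans (Real.rpow_le_rpow_of_exponent_le hX1 ?_)
  rw [div_le_iff₀ hR0]
  rw [div_le_iff₀ hδ] at hR
  linarith

end Pool.Agent.W232.FC
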