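import Pool.Agent.W232.FC.Fin

namespace Pool.Agent.W232.FC

open Classical

theorem rad_mul_le {a b : ℕ} (ha : a ≠ 0) (hb : b ≠ 0) : rad (a * b) ≤ rad a * rad b := by
  unfold rad
  rw [Nat.primeFactors_mul ha hb]
  have h := Finset.prod_union_inter (s₁ := a.primeFactors) (s₂ := b.primeFactors)
    (f := fun p : ℕ => p)
  rw [← h]
  refine Nat.le_mul_of_pos_right _ (Finset.prod_pos fun p hp => ?_)
  exact (Nat.prime_of_mem_primeFactors (Finset.mem_of_mem_inter_left hp)).pos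

theorem rad_mul_pow_le {c z : ℤ} {n : ℕ} (hc : c ≠ 0) (hz : z ≠ 0) (hn : n ≠ 0) :
    rad (c * z ^ n).natAbs ≤ rad c.natAbs * z.natAbs := by
  rw [Int.natAbs_mul, Int.natAbs_pow]
  refine (rad_mul_le (Int.natAbs_ne_zero.2 hc) (pow_ne_zero _ (Int.natAbs_ne_zero.2 hz))).trans ?_
  exact Nat.mul_le_mul_left _ (rad_pow_le (Int.natAbs_ne_zero.2 hz) hn)

theorem rad_neg (a : ℤ) : rad (-a).natAbs = rad a.natAbs := by rw [Int.natAbs_neg]

/-- solutions of `a x^l + b y^m = c z^n` with terms at most `X`, coefficients of radical at most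
`Y` and a base at most `Y` in absolute value, given by their terms -/
def SolC (X : ℕ) (Y : ℝ) : Set (ℤ × ℤ × ℤ) :=
  {t | t.1 + t.2.1 = t.2.2 ∧ t.1.natAbs ≤ X ∧ t.2.1.natAbs ≤ X ∧ t.2.2.natAbs ≤ X ∧
    ∃ (a b c x y z : ℤ) (l m n : ℕ), a ≠ 0 ∧ b ≠ 0 ∧ c ≠ 0 ∧ x ≠ 0 ∧ y ≠ 0 ∧ z ≠ 0 ∧
    2 ≤ l ∧ 2 ≤ m ∧ 2 ≤ n ∧ t = (a * x ^ l, b * y ^ m, c * z ^ n) ∧
    (rad a.natAbs : ℝ) ≤ Y ∧ (rad b.natAbs : ℝ) ≤ Y ∧ (rad c.natAbs : ℝ) ≤ Y ∧
    ((x.natAbs : ℝ) ≤ Y ∨ (y.natAbs : ℝ) ≤ Y ∨ (z.natAbs : ℝ) ≤ Y)}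

theorem SolC_finite (X : ℕ) (Y : ℝ) : (SolC X Y).Finite := by
  refine Set.Finite.subset ((Set.finite_Icc (-(X : ℤ)) X).prod
    ((Set.finite_Icc (-(X : ℤ)) X).prod (Set.finite_Icc (-(X : ℤ)) X))) ?_
  rintro ⟨x, y, z⟩ ⟨-, h1, h2, h3, -⟩
  simp only at h1 h2 h3
  simp only [Set.mem_prod, Set.mem_Icc]
  omega

theorem sparseC (ε : ℝ) (hε : 0 < ε) : ∃ δ : ℝ, 0 < δ ∧ ∃ X₀ : ℕ, ∀ X : ℕ, X₀ ≤ X →
    ((SolC X ((X : ℝ) ^ δ)).ncard : ℝ) ≤ (X : ℝ) ^ ε := by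
  obtain ⟨δ', hδ', X₁, hX₁⟩ := t_GT (ε / 2) (by positivity)
  obtain ⟨X₂, hX₂⟩ := ev_const 3 (ε / 2) (by positivity)
  refine ⟨δ' / 2, by positivity, X₁ + X₂ + 1, fun X hX => ?_⟩
  have hX1 : 1 ≤ X := by omega
  have h3 := hX₂ X (by omega)
  have hXR : (0 : ℝ) < X := by exact_mod_cast hX1
  have hX1R : (1 : ℝ) ≤ X := by exact_mod_cast hX1
  set δ : ℝ := δ' / 2 with hδdef
  have hδ : 0 < δ := by positivity
  have hle : (X : ℝ) ^ δ ≤ (X : ℝ) ^ δ' :=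
    Real.rpow_le_rpow_of_exponent_le hX1R (by rw [hδdef]; linarith)
  have hmulle : (X : ℝ) ^ δ * (X : ℝ) ^ δ = (X : ℝ) ^ δ' := by
    rw [← Real.rpow_add hXR]; congr 1; rw [hδdef]; ring
  have hradz : ∀ (c z : ℤ) (n : ℕ), c ≠ 0 → z ≠ 0 → 2 ≤ n → (rad c.natAbs : ℝ) ≤ (X : ℝ) ^ δ →
      (z.natAbs : ℝ) ≤ (X : ℝ) ^ δ → (rad (c * z ^ n).natAbs : ℝ) ≤ (X : ℝ) ^ δ' := by
    intro c z n hc hz hn h1 h2
    rw [← hmulle]
    calc (rad (c * z ^ n).natAbs : ℝ) ≤ ((rad c.natAbs * z.natAbs : ℕ) : ℝ) := by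
          exact_mod_cast rad_mul_pow_le hc hz (by omega)
      _ = (rad c.natAbs : ℝ) * (z.natAbs : ℝ) := by push_cast; ring
      _ ≤ _ := by gcongr
  set F : Finset (ℤ × ℤ × ℤ) := (SolC_finite X ((X : ℝ) ^ δ)).toFinset with hF
  have hmem : ∀ t ∈ F, t ∈ SolC X ((X : ℝ) ^ δ) := fun t ht => by
    rw [hF, Set.Finite.mem_toFinset] at ht; exact ht
  set s1 : Finset (ℤ × ℤ) := (F.image (fun t : ℤ × ℤ × ℤ => (t.1, t.2.1))).filter
    (fun w => (rad (w.1 + w.2).natAbs : ℝ) ≤ (X : ℝ) ^ δ') with hs1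
  set s2 : Finset (ℤ × ℤ) := (F.image (fun t : ℤ × ℤ × ℤ => (t.2.2, -t.2.1))).filter
    (fun w => (rad (w.1 + w.2).natAbs : ℝ) ≤ (X : ℝ) ^ δ') with hs2
  set s3 : Finset (ℤ × ℤ) := (F.image (fun t : ℤ × ℤ × ℤ => (t.2.2, -t.1))).filter
    (fun w => (rad (w.1 + w.2).natAbs : ℝ) ≤ (X : ℝ) ^ δ') with hs3
  have hAP : ∀ (a x : ℤ) (l : ℕ), 2 ≤ l → (rad a.natAbs : ℝ) ≤ (X : ℝ) ^ δ →
      AP δ' X (a * x ^ l) ∧ AP δ' X (-(a * x ^ l)) := by
    intro a x l hl h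
    refine ⟨⟨l, a, x, hl, rfl, h.trans hle⟩, ⟨l, -a, x, hl, by ring, ?_⟩⟩
    rw [rad_neg]; exact h.trans hle
  have hb1 : (s1.card : ℝ) ≤ (X : ℝ) ^ (ε / 2) := by
    refine hX₁ X (by omega) s1 ?_
    intro w hw
    rw [hs1, Finset.mem_filter, Finset.mem_image] at hw
    obtain ⟨⟨t, ht, rfl⟩, hr⟩ := hw
    obtain ⟨e1, e2, e3, e4, a, b, c, x, y, z, l, m, n, ha, hb, hc, hx, hy, hz, hl, hm, hn, he,
      ra, rb, rc, -⟩ := hmem t ht
    have p1 : t.1 = a * x ^ l := by rw [he]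
    have p2 : t.2.1 = b * y ^ m := by rw [he]
    have p3 : t.2.2 = c * z ^ n := by rw [he]
    have q1 : t.1 ≠ 0 := by rw [p1]; exact mul_ne_zero ha (pow_ne_zero _ hx)
    have q2 : t.2.1 ≠ 0 := by rw [p2]; exact mul_ne_zero hb (pow_ne_zero _ hy)
    have q3 : t.2.2 ≠ 0 := by rw [p3]; exact mul_ne_zero hc (pow_ne_zero _ hz)
    refine ⟨q1, q2, by simp only; omega, e2, e3, by simp only; omega, hr, ?_, ?_⟩
    · simp only; rw [p1]; exact (hAP a x l hl ra).1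
    · simp only; rw [p2]; exact (hAP b y m hm rb).1
  have hb2 : (s2.card : ℝ) ≤ (X : ℝ) ^ (ε / 2) := by
    refine hX₁ X (by omega) s2 ?_
    intro w hw
    rw [hs2, Finset.mem_filter, Finset.mem_image] at hw
    obtain ⟨⟨t, ht, rfl⟩, hr⟩ := hw
    obtain ⟨e1, e2, e3, e4, a, b, c, x, y, z, l, m, n, ha, hb, hc, hx, hy, hz, hl, hm, hn, he,
      ra, rb, rc, -⟩ := hmem t ht
    have p1 : t.1 = a * x ^ l := by rw [he]
    have p2 : t.2.1 = b * y ^ m := by rw [he]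
    have p3 : t.2.2 = c * z ^ n := by rw [he]
    have q1 : t.1 ≠ 0 := by rw [p1]; exact mul_ne_zero ha (pow_ne_zero _ hx)
    have q2 : t.2.1 ≠ 0 := by rw [p2]; exact mul_ne_zero hb (pow_ne_zero _ hy)
    have q3 : t.2.2 ≠ 0 := by rw [p3]; exact mul_ne_zero hc (pow_ne_zero _ hz)
    refine ⟨q3, neg_ne_zero.2 q2, by simp only; omega, e4, by simp only; omega,
      by simp only; omega, hr, ?_, ?_⟩
    · simp only; rw [p3]; exact (hAP c z n hn rc).1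
    · simp only; rw [p2]; exact (hAP b y m hm rb).2
  have hb3 : (s3.card : ℝ) ≤ (X : ℝ) ^ (ε / 2) := by
    refine hX₁ X (by omega) s3 ?_
    intro w hw
    rw [hs3, Finset.mem_filter, Finset.mem_image] at hw
    obtain ⟨⟨t, ht, rfl⟩, hr⟩ := hw
    obtain ⟨e1, e2, e3, e4, a, b, c, x, y, z, l, m, n, ha, hb, hc, hx, hy, hz, hl, hm, hn, he,
      ra, rb, rc, -⟩ := hmem t ht
    have p1 : t.1 = a * x ^ l := by rw [he]
    have p2 : t.2.1 = b * y ^ m := by rw [he]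
    have p3 : t.2.2 = c * z ^ n := by rw [he]
    have q1 : t.1 ≠ 0 := by rw [p1]; exact mul_ne_zero ha (pow_ne_zero _ hx)
    have q2 : t.2.1 ≠ 0 := by rw [p2]; exact mul_ne_zero hb (pow_ne_zero _ hy)
    have q3 : t.2.2 ≠ 0 := by rw [p3]; exact mul_ne_zero hc (pow_ne_zero _ hz)
    refine ⟨q3, neg_ne_zero.2 q1, by simp only; omega, e4, by simp only; omega,
      by simp only; omega, hr, ?_, ?_⟩
    · simp only; rw [p3]; exact (hAP c z n hn rc).1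
    · simp only; rw [p1]; exact (hAP a x l hl ra).2
  -- inclusion
  set g1 : ℤ × ℤ → ℤ × ℤ × ℤ := fun w => (w.1, w.2, w.1 + w.2) with hg1
  set g2 : ℤ × ℤ → ℤ × ℤ × ℤ := fun w => (w.1 + w.2, -w.2, w.1) with hg2
  set g3 : ℤ × ℤ → ℤ × ℤ × ℤ := fun w => (-w.2, w.1 + w.2, w.1) with hg3
  have hsub : F ⊆ (s1.image g1 ∪ s2.image g2) ∪ s3.image g3 := by
    intro t ht
    obtain ⟨e1, e2, e3, e4, a, b, c, x, y, z, l, m, n, ha, hb, hc, hx, hy, hz, hl, hm, hn, he,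
      ra, rb, rc, hor⟩ := hmem t ht
    have p1 : t.1 = a * x ^ l := by rw [he]
    have p2 : t.2.1 = b * y ^ m := by rw [he]
    have p3 : t.2.2 = c * z ^ n := by rw [he]
    rw [Finset.mem_union, Finset.mem_union]
    rcases hor with h | h | h
    · left; right
      rw [Finset.mem_image]
      refine ⟨(t.2.2, -t.2.1), ?_, ?_⟩
      · rw [hs2, Finset.mem_filter]
        refine ⟨Finset.mem_image_of_mem _ ht, ?_⟩
        have : t.2.2 + -t.2.1 = a * x ^ l := by rw [← p1]; omega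
        simp only [this]
        exact hradz a x l ha hx hl ra h
      · rw [hg2]
        refine Prod.ext ?_ (Prod.ext ?_ ?_) <;> simp only <;> omega
    · right
      rw [Finset.mem_image]
      refine ⟨(t.2.2, -t.1), ?_, ?_⟩
      · rw [hs3, Finset.mem_filter]
        refine ⟨Finset.mem_image_of_mem _ ht, ?_⟩
        have : t.2.2 + -t.1 = b * y ^ m := by rw [← p2]; omega
        simp only [this]
        exact hradz b y m hb hy hm rb h
      · rw [hg3]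
        refine Prod.ext ?_ (Prod.ext ?_ ?_) <;> simp only <;> omega
    · left; left
      rw [Finset.mem_image]
      refine ⟨(t.1, t.2.1), ?_, ?_⟩
      · rw [hs1, Finset.mem_filter]
        refine ⟨Finset.mem_image_of_mem _ ht, ?_⟩
        have : t.1 + t.2.1 = c * z ^ n := by rw [← p3]; omega
        simp only [this]
        exact hradz c z n hc hz hn rc h
      · rw [hg1]
        refine Prod.ext ?_ (Prod.ext ?_ ?_) <;> simp only <;> omega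
  have hcard : F.card ≤ s1.card + s2.card + s3.card := by
    refine (Finset.card_le_card hsub).trans ((Finset.card_union_le _ _).trans ?_)
    refine Nat.add_le_add ((Finset.card_union_le _ _).trans ?_) Finset.card_image_le
    exact Nat.add_le_add Finset.card_image_le Finset.card_image_le
  rw [Set.ncard_eq_toFinset_card _ (SolC_finite X ((X : ℝ) ^ δ))]
  calc (F.card : ℝ) ≤ (s1.card : ℝ) + s2.card + s3.card := by exact_mod_cast hcard
    _ ≤ 3 * (X : ℝ) ^ (ε / 2) := by linarith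
    _ ≤ (X : ℝ) ^ (ε / 2) * (X : ℝ) ^ (ε / 2) := by gcongr
    _ = (X : ℝ) ^ ε := by rw [← Real.rpow_add hXR]; congr 1; ring

end Pool.Agent.W232.FC
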