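import Pool.Agent.W232.FC.ML

namespace Pool.Agent.W232.FC

open NumberField Classical Polynomial

theorem inst_conv (K : IntermediateField ℚ ℂ) (p ρ : ℕ)
    (h1 : Module.finrank ℚ K ≤ p ^ 2)
    (h2 : ∃ w : Fin (Module.finrank ℚ K) → 𝓞 K, LinearIndependent ℚ (fun i => (w i : K)) ∧
      ∀ i, ∀ σ : K →+* ℂ, ‖σ (w i : K)‖ ≤ (ρ : ℝ)) :
    (@Module.finrank ℚ K _ _ (@Algebra.toModule ℚ K _ _ DivisionRing.toRatAlgebra) ≤ p ^ 2) ∧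
    (∃ w : Fin (@Module.finrank ℚ K _ _ (@Algebra.toModule ℚ K _ _ DivisionRing.toRatAlgebra)) →
        𝓞 K, (@LinearIndependent _ ℚ K (fun i => (w i : K)) _ _
          (@Algebra.toModule ℚ K _ _ DivisionRing.toRatAlgebra)) ∧
      ∀ i, ∀ σ : K →+* ℂ, ‖σ (w i : K)‖ ≤ (ρ : ℝ)) := by
  have : (@Algebra.toModule ℚ K _ _ DivisionRing.toRatAlgebra) =
      (inferInstance : Module ℚ K) := Subsingleton.elim _ _
  rw [this]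
  exact ⟨h1, h2⟩

theorem ml (hSEL : S_SEL) (hPRM : S_PRM) (hIDV : S_IDV) (hDIV : S_DIV) (hVAL : S_VAL)
    (hBAS : S_BAS) (hDEG : S_DEG) : S_ML := by
  intro p q hp hq
  set C1 : ℕ := q ^ (2 ^ (p ^ 2 + 1)) * (p ^ 2) ^ (p ^ 2 * (p ^ 2 + 1)) * q ^ (p ^ 2) *
    36 ^ (p ^ 2) with hC1
  set K1 : ℕ := p ^ 2 * q + p ^ 2 * (p ^ 2 + 1) with hK1
  refine ⟨980 * (p * q) ^ 5 + 2 + C1 ^ 2 + 2 * K1, by omega, ?_⟩
  set C : ℕ := 980 * (p * q) ^ 5 + 2 + C1 ^ 2 + 2 * K1 with hC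
  intro ρ T G M H s hρ hT hH hpρ hG hM hGM hGH hs
  have hp0 : 0 < p := by omega
  have hGρ : ∀ ℓ : ℕ, ℓ.Prime → (ℓ : ℤ) ∣ G → ℓ ∣ ρ := fun ℓ hℓ hd => hGM ℓ hℓ (hd.mul_right _)
  obtain ⟨ζ, hζ⟩ : ∃ ζ : ℂ, IsPrimitiveRoot ζ p := ⟨_, Complex.isPrimitiveRoot_exp p (by omega)⟩
  obtain ⟨ξ, hξ⟩ : ∃ ξ : ℂ, IsPrimitiveRoot ξ q := ⟨_, Complex.isPrimitiveRoot_exp q (by omega)⟩
  obtain ⟨γ, hγ⟩ := IsAlgClosed.exists_pow_nat_eq ((G : ℂ)) hp0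
  have hρR : (1 : ℝ) ≤ ρ := by exact_mod_cast hρ
  have hfb := fb_bound p q ρ T C H hp hq hρ hT hH (by omega)
  have hV0 : 0 ≤ Fb p q ρ T H ^ 2 := by
    have := one_le_Fb p q ρ T H hp hq hρ hT hH
    positivity
  have hmain : (s.card : ℝ) ≤ (C1 : ℝ) ^ 2 * (ρ : ℝ) ^ (2 * K1) * Fb p q ρ T H ^ 2 := by
    obtain ⟨hNF, hfr, hw⟩ := hBAS p ρ ζ γ G hp hρ hζ hγ hG hGρ
    have hfib := fun a b F hF => fibre hPRM hIDV hDIV hDEG p q ρ T G H ζ ξ γ a b F hp hq hρ hT hH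
      hpρ hG hGρ hGH hζ hξ hγ hF
    have hζK : ζ ∈ IntermediateField.adjoin ℚ ({ζ, γ} : Set ℂ) :=
      IntermediateField.subset_adjoin ℚ _ (by simp)
    have hγK : γ ∈ IntermediateField.adjoin ℚ ({ζ, γ} : Set ℂ) :=
      IntermediateField.subset_adjoin ℚ _ (by simp)
    obtain ⟨hfr', hw'⟩ := inst_conv _ p ρ hfr hw
    clear hfr hw
    generalize IntermediateField.adjoin ℚ ({ζ, γ} : Set ℂ) = K at hNF hfib hζK hγK hfr' hw'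
    have hζi : IsIntegral ℤ ζ := hζ.isIntegral hp0
    have hγi : IsIntegral ℤ γ := by
      refine IsIntegral.of_pow hp0 ?_
      rw [hγ]
      exact isIntegral_algebraMap (R := ℤ) (A := ℂ) (x := G)
    obtain ⟨ζo, hζo⟩ := mkInt K hζK hζi
    obtain ⟨γo, hγo⟩ := mkInt K hγK hγi
    have hinj0 : ∀ x y : 𝓞 K, ((x : K) : ℂ) = ((y : K) : ℂ) → x = y := by
      intro x y h
      exact RingOfIntegers.ext (Subtype.ext h)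
    obtain ⟨φ, hφ⟩ : ∃ φ : 𝓞 K →+* ℂ, ∀ x : 𝓞 K, φ x = ((x : K) : ℂ) :=
      ⟨(K.val : K →+* ℂ).comp (algebraMap (𝓞 K) K), fun x => rfl⟩
    have hinj : ∀ x y : 𝓞 K, φ x = φ y → x = y := by
      intro x y h
      rw [hφ, hφ] at h
      exact hinj0 x y h
    have hζo' : IsPrimitiveRoot ζo p := by
      refine IsPrimitiveRoot.of_map_of_injective (f := φ) ?_ ?_
      · rw [hφ, hζo]; exact hζ
      · intro x y h
        exact hinj x y h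
    have hγo' : γo ^ p = (G : 𝓞 K) := by
      apply hinj
      rw [map_pow, hφ, hγo, hγ, map_intCast]
    obtain ⟨ι, hι⟩ : ∃ ι : K →+* ℂ, ∀ x : K, ι x = (x : ℂ) := ⟨K.val, fun x => rfl⟩
    refine ml_core hSEL hPRM hVAL K ι ζo γo p q ρ G M H (Fb p q ρ T H ^ 2) s hp hq hρ hpρ hG hM hGM
      hs hζo' hγo' hfr' hw' hV0 ?_
    intro a b F hF
    refine hfib a b F ?_
    intro u hu
    obtain ⟨h1, ⟨z0, h2⟩, ⟨z1, h3⟩⟩ := hF u hu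
    rw [hι, hι, hγo] at h2
    rw [hι, hι, hι, hγo, hζo] at h3
    exact ⟨h1, ⟨z0, z0.2, h2⟩, ⟨z1, z1.2, h3⟩⟩
  calc (s.card : ℝ) ≤ (C1 : ℝ) ^ 2 * (ρ : ℝ) ^ (2 * K1) * Fb p q ρ T H ^ 2 := hmain
    _ ≤ (C1 : ℝ) ^ 2 * (ρ : ℝ) ^ (2 * K1) *
          (C * Real.log H) ^ (C * (T : ℝ) ^ C + C * Real.log ρ / Real.log T) := by gcongr
    _ ≤ _ := by
        have g1 : (C1 : ℝ) ^ 2 ≤ C := by exact_mod_cast (by omega : C1 ^ 2 ≤ C)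
        have g2 : (ρ : ℝ) ^ (2 * K1) ≤ (ρ : ℝ) ^ C := pow_le_pow_right₀ hρR (by omega)
        refine mul_le_mul_of_nonneg_right (mul_le_mul g1 g2 (by positivity) (by positivity))
          (hV0.trans hfb)

end Pool.Agent.W232.FC
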