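import Pool.Agent.W232.FC.Stm

namespace Pool.Agent.W232.FC

open NumberField Classical

theorem sel (hDEC : S_DEC) (hNUMD : S_NUMD) (hREP : S_REP) (hIDL : S_IDL) (hUNI : S_UNI) :
    S_SEL := by
  intro K _ _ q ρ k B hq hB hk hw s hs hs2
  set D := Module.finrank ℚ K with hD
  obtain ⟨w, hw1, hw2⟩ := hw
  have h1 : ∀ x : 𝓞 K, ∃ (𝔡 𝔞 𝔠 : Ideal (𝓞 K)) (y : 𝓞 K), x ∈ s →
      (Ideal.span {x} = 𝔡 * 𝔞 ^ q ∧ Small K q ρ 𝔡 ∧ 𝔠 ≠ ⊥ ∧ y ≠ 0 ∧
        (Ideal.absNorm 𝔠 : ℝ) ≤ ((D : ℝ) * B) ^ D ∧ 𝔞 * 𝔠 = Ideal.span {y}) := by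
    intro x
    by_cases hx : x ∈ s
    · obtain ⟨𝔡, 𝔞, e1, e2, e3⟩ := hDEC K q ρ x hq (hs x hx).1 (hs x hx).2
      obtain ⟨𝔠, y, f1, f2, f3, f4⟩ := hREP K B hB w hw1 hw2 𝔞 e2
      exact ⟨𝔡, 𝔞, 𝔠, y, fun _ => ⟨e1, e3, f1, f2, f3, f4⟩⟩
    · exact ⟨⊤, ⊤, ⊤, 0, fun h => absurd h hx⟩
  choose 𝔡 𝔞 𝔠 y h using h1
  -- key relation
  have key : ∀ x ∈ s, Ideal.span {x} * 𝔠 x ^ q = 𝔡 x * Ideal.span {y x} ^ q := by
    intro x hx
    obtain ⟨e1, -, -, -, -, e6⟩ := h x hx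
    rw [e1, ← e6, mul_pow]
    ring
  set U : ℕ := ⌊(q : ℝ) ^ D * 6 ^ (2 * D)⌋₊ with hU
  have hcard : s.card ≤ U * (s.image (fun x => (𝔡 x, 𝔠 x))).card := by
    refine Finset.card_le_mul_card_image s U ?_
    rintro ⟨d0, c0⟩ hdc
    rw [Finset.mem_image] at hdc
    obtain ⟨x0, hx0, hx0e⟩ := hdc
    simp only [Prod.mk.injEq] at hx0e
    set F := s.filter (fun x => (𝔡 x, 𝔠 x) = (d0, c0)) with hF
    have hc0 : c0 ^ q ≠ ⊥ := by
      rw [← hx0e.2]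
      exact pow_ne_zero q (h x0 hx0).2.2.1
    have hu : ∀ x : 𝓞 K, ∃ u : (𝓞 K)ˣ, x ∈ F → x * (y x0) ^ q = x0 * (y x) ^ q * u := by
      intro x
      by_cases hx : x ∈ F
      · have hxs : x ∈ s := (Finset.mem_filter.1 hx).1
        have hxe := (Finset.mem_filter.1 hx).2
        simp only [Prod.mk.injEq] at hxe
        have k1 := key x hxs
        have k2 := key x0 hx0
        rw [hxe.1, hxe.2] at k1
        rw [hx0e.1, hx0e.2] at k2
        have k3 : Ideal.span {x * (y x0) ^ q} = Ideal.span {x0 * (y x) ^ q} := by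
          have k4 : c0 ^ q * Ideal.span {x * (y x0) ^ q} = c0 ^ q * Ideal.span {x0 * (y x) ^ q} := by
            rw [← Ideal.span_singleton_mul_span_singleton, ← Ideal.span_singleton_mul_span_singleton,
              ← Ideal.span_singleton_pow, ← Ideal.span_singleton_pow]
            calc c0 ^ q * (Ideal.span {x} * Ideal.span {y x0} ^ q)
                = (Ideal.span {x} * c0 ^ q) * Ideal.span {y x0} ^ q := by ring
              _ = (d0 * Ideal.span {y x} ^ q) * Ideal.span {y x0} ^ q := by rw [k1]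
              _ = (d0 * Ideal.span {y x0} ^ q) * Ideal.span {y x} ^ q := by ring
              _ = (Ideal.span {x0} * c0 ^ q) * Ideal.span {y x} ^ q := by rw [← k2]
              _ = c0 ^ q * (Ideal.span {x0} * Ideal.span {y x} ^ q) := by ring
          exact mul_left_cancel₀ hc0 k4
        rw [Ideal.span_singleton_eq_span_singleton] at k3
        obtain ⟨u, hu⟩ := k3.symm
        exact ⟨u, fun _ => hu.symm⟩
      · exact ⟨1, fun h => absurd h hx⟩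
    choose u hu using hu
    have hy0 : y x0 ≠ 0 := (h x0 hx0).2.2.2.1
    -- comparison
    have hcmp : ∀ x ∈ F, ∀ x' ∈ F, (∃ v : (𝓞 K)ˣ, u x = u x' * v ^ q) → x = x' := by
      intro x hx x' hx' ⟨v, hv⟩
      by_contra hne
      have hxs : x ∈ s := (Finset.mem_filter.1 hx).1
      have hxs' : x' ∈ s := (Finset.mem_filter.1 hx').1
      refine hs2 x hxs x' hxs' hne ?_
      have hyx : y x ≠ 0 := (h x hxs).2.2.2.1
      have hyx' : y x' ≠ 0 := (h x' hxs').2.2.2.1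
      have e1 := hu x hx
      have e2 := hu x' hx'
      refine ⟨((y x : 𝓞 K) : K) * ((v : 𝓞 K) : K) / ((y x' : 𝓞 K) : K), ?_⟩
      have hyK : ((y x' : 𝓞 K) : K) ≠ 0 := by
        simpa using hyx'
      have hy0K : ((y x0 : 𝓞 K) : K) ≠ 0 := by
        simpa using hy0
      have E1 : ((x : 𝓞 K) : K) * ((y x0 : 𝓞 K) : K) ^ q =
          (x0 : K) * ((y x : 𝓞 K) : K) ^ q * (((u x : 𝓞 K)) : K) := by
        exact_mod_cast congrArg (fun t : 𝓞 K => (t : K)) e1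
      have E2 : ((x' : 𝓞 K) : K) * ((y x0 : 𝓞 K) : K) ^ q =
          (x0 : K) * ((y x' : 𝓞 K) : K) ^ q * (((u x' : 𝓞 K)) : K) := by
        exact_mod_cast congrArg (fun t : 𝓞 K => (t : K)) e2
      have E3 : (((u x : 𝓞 K)) : K) = (((u x' : 𝓞 K)) : K) * ((v : 𝓞 K) : K) ^ q := by
        have := congrArg (fun t : (𝓞 K)ˣ => ((t : 𝓞 K) : K)) hv
        simpa using this
      have hpow : ((y x0 : 𝓞 K) : K) ^ q ≠ 0 := pow_ne_zero _ hy0K
      rw [div_pow, mul_pow]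
      field_simp
      apply mul_right_cancel₀ hpow
      calc ((x : 𝓞 K) : K) * ((y x' : 𝓞 K) : K) ^ q * ((y x0 : 𝓞 K) : K) ^ q
          = (((x : 𝓞 K) : K) * ((y x0 : 𝓞 K) : K) ^ q) * ((y x' : 𝓞 K) : K) ^ q := by ring
        _ = ((x0 : K) * ((y x' : 𝓞 K) : K) ^ q * (((u x' : 𝓞 K)) : K)) *
              ((y x : 𝓞 K) : K) ^ q * ((v : 𝓞 K) : K) ^ q := by rw [E1, E3]; ring
        _ = (((x' : 𝓞 K) : K) * ((y x0 : 𝓞 K) : K) ^ q) *
              ((y x : 𝓞 K) : K) ^ q * ((v : 𝓞 K) : K) ^ q := by rw [E2]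
        _ = _ := by ring
    have hinj : Set.InjOn u (F : Set (𝓞 K)) := by
      intro x hx x' hx' he
      exact hcmp x hx x' hx' ⟨1, by simp [he]⟩
    have hFc : F.card = (F.image u).card := (Finset.card_image_of_injOn hinj).symm
    rw [hFc]
    refine Nat.le_floor ?_
    refine hUNI K q hq (F.image u) ?_
    intro a ha b hb hab hex
    rw [Finset.mem_image] at ha hb
    obtain ⟨x, hx, rfl⟩ := ha
    obtain ⟨x', hx', rfl⟩ := hb
    exact hab (by rw [hcmp x hx x' hx' hex])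
  set T : ℕ := ⌊((D : ℝ) * B) ^ D⌋₊ with hT
  have himg : (s.image (fun x => (𝔡 x, 𝔠 x))).card ≤ q ^ k * T ^ (D + 1) := by
    have hsub : s.image (fun x => (𝔡 x, 𝔠 x)) ⊆ (s.image 𝔡) ×ˢ (s.image 𝔠) := by
      intro a ha
      rw [Finset.mem_image] at ha
      obtain ⟨x, hx, rfl⟩ := ha
      exact Finset.mem_product.2 ⟨Finset.mem_image_of_mem _ hx, Finset.mem_image_of_mem _ hx⟩
    refine (Finset.card_le_card hsub).trans ?_
    rw [Finset.card_product]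
    refine Nat.mul_le_mul ?_ ?_
    · refine hNUMD K q ρ k hq hk _ ?_
      intro d hd
      rw [Finset.mem_image] at hd
      obtain ⟨x, hx, rfl⟩ := hd
      exact (h x hx).2.1
    · refine hIDL K T _ ?_
      intro c hc
      rw [Finset.mem_image] at hc
      obtain ⟨x, hx, rfl⟩ := hc
      exact ⟨(h x hx).2.2.1, Nat.le_floor (h x hx).2.2.2.2.1⟩
  have hUr : (U : ℝ) ≤ (q : ℝ) ^ D * 6 ^ (2 * D) := Nat.floor_le (by positivity)
  have hTr : (T : ℝ) ≤ ((D : ℝ) * B) ^ D := Nat.floor_le (by positivity)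
  calc (s.card : ℝ) ≤ ((U * (q ^ k * T ^ (D + 1)) : ℕ) : ℝ) := by
        exact_mod_cast hcard.trans (Nat.mul_le_mul_left _ himg)
    _ = (U : ℝ) * ((q : ℝ) ^ k * (T : ℝ) ^ (D + 1)) := by push_cast; ring
    _ ≤ ((q : ℝ) ^ D * 6 ^ (2 * D)) * ((q : ℝ) ^ k * (((D : ℝ) * B) ^ D) ^ (D + 1)) := by
        gcongr
    _ = _ := by ring

end Pool.Agent.W232.FC
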