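import Mathlib

/-!
Statements of the parts of the project FC (number of solutions of generalised Fermat equations one
of whose bases is small). `K` is always a number field of degree `D = Module.finrank ℚ K`.
-/

namespace Pool.Agent.W232.FC

open NumberField

/-- INT: a number field has at most `(4B+2)^(2D)` integers all of whose conjugates are at most `B`. -/
def S_INT : Prop := ∀ (K : Type) [Field K] [NumberField K] (B : ℝ), 1 ≤ B →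
  ∀ s : Finset (𝓞 K), (∀ x ∈ s, ∀ σ : K →+* ℂ, ‖σ (x : K)‖ ≤ B) →
    (s.card : ℝ) ≤ (4 * B + 2) ^ (2 * Module.finrank ℚ K)

/-- DIV: number of divisors of `n` with bounded conjugates, if `(n)` has at most `L` ideal divisors. -/
def S_DIV : Prop := ∀ (K : Type) [Field K] [NumberField K] (n : 𝓞 K) (L : ℕ) (H : ℝ),
  n ≠ 0 → 1 ≤ H →
  (∀ t : Finset (Ideal (𝓞 K)), (∀ J ∈ t, J ∣ Ideal.span {n}) → t.card ≤ L) →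
  ∀ s : Finset (𝓞 K), (∀ x ∈ s, x ∣ n ∧ ∀ σ : K →+* ℂ, ‖σ (x : K)‖ ≤ H) →
    (s.card : ℝ) ≤ L * (Module.finrank ℚ K * Real.log H + 2) ^ (Module.finrank ℚ K) *
      14 ^ (2 * Module.finrank ℚ K)

/-- IDL: there are at most `T^(D+1)` nonzero ideals of norm at most `T`. -/
def S_IDL : Prop := ∀ (K : Type) [Field K] [NumberField K] (T : ℕ) (t : Finset (Ideal (𝓞 K))),
  (∀ J ∈ t, J ≠ ⊥ ∧ Ideal.absNorm J ≤ T) → t.card ≤ T ^ (Module.finrank ℚ K + 1)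

/-- PRM: number of prime ideals that contain the positive integer `ρ`. -/
def S_PRM : Prop := ∀ (K : Type) [Field K] [NumberField K] (ρ T : ℕ), 1 ≤ ρ → 2 ≤ T →
  ∀ P : Finset (Ideal (𝓞 K)), (∀ 𝔓 ∈ P, 𝔓.IsPrime ∧ 𝔓 ≠ ⊥ ∧ (ρ : 𝓞 K) ∈ 𝔓) →
    (P.card : ℝ) ≤ (T : ℝ) ^ (Module.finrank ℚ K + 1) +
      Module.finrank ℚ K * Real.log ρ / Real.log T

/-- IDV: number of divisors of an ideal with at most `k` prime divisors. -/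
def S_IDV : Prop := ∀ (K : Type) [Field K] [NumberField K] (I : Ideal (𝓞 K)) (k : ℕ), I ≠ ⊥ →
  (∀ P : Finset (Ideal (𝓞 K)), (∀ 𝔓 ∈ P, 𝔓.IsPrime ∧ 𝔓 ≠ ⊥ ∧ I ≤ 𝔓) → P.card ≤ k) →
  ∀ t : Finset (Ideal (𝓞 K)), (∀ J ∈ t, J ∣ I) →
    t.card ≤ (Nat.log 2 (Ideal.absNorm I) + 1) ^ k

/-- REP: ideal class representatives of small norm from a small basis. -/
def S_REP : Prop := ∀ (K : Type) [Field K] [NumberField K] (B : ℝ), 1 ≤ B →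
  ∀ w : Fin (Module.finrank ℚ K) → 𝓞 K, LinearIndependent ℚ (fun i => (w i : K)) →
  (∀ i, ∀ σ : K →+* ℂ, ‖σ (w i : K)‖ ≤ B) →
  ∀ 𝔞 : Ideal (𝓞 K), 𝔞 ≠ ⊥ → ∃ (𝔠 : Ideal (𝓞 K)) (y : 𝓞 K), 𝔠 ≠ ⊥ ∧ y ≠ 0 ∧
    (Ideal.absNorm 𝔠 : ℝ) ≤ ((Module.finrank ℚ K : ℝ) * B) ^ (Module.finrank ℚ K) ∧
    𝔞 * 𝔠 = Ideal.span {y}

/-- UNI: number of units modulo `q`-th powers. -/
def S_UNI : Prop := ∀ (K : Type) [Field K] [NumberField K] (q : ℕ), 1 ≤ q →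
  ∀ s : Finset (𝓞 K)ˣ, (∀ u ∈ s, ∀ v ∈ s, u ≠ v → ¬ ∃ w : (𝓞 K)ˣ, u = v * w ^ q) →
    (s.card : ℝ) ≤ (q : ℝ) ^ (Module.finrank ℚ K) * 6 ^ (2 * Module.finrank ℚ K)

/-- all multiplicities of `x` at the primes that do not contain `ρ` are divisible by `q` -/
def Val (K : Type) [Field K] [NumberField K] (q ρ : ℕ) (x : 𝓞 K) : Prop :=
  ∀ 𝔓 : Ideal (𝓞 K), 𝔓.IsPrime → 𝔓 ≠ ⊥ → (ρ : 𝓞 K) ∉ 𝔓 →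
    q ∣ (UniqueFactorizationMonoid.normalizedFactors (Ideal.span {x})).count 𝔓

/-- `𝔡` is composed of primes containing `ρ`, with exponents less than `q` -/
def Small (K : Type) [Field K] [NumberField K] (q ρ : ℕ) (𝔡 : Ideal (𝓞 K)) : Prop :=
  𝔡 ≠ ⊥ ∧ ∀ 𝔓 : Ideal (𝓞 K), 𝔓.IsPrime → 𝔓 ∣ 𝔡 → (ρ : 𝓞 K) ∈ 𝔓 ∧ ¬ 𝔓 ^ q ∣ 𝔡

/-- DEC: decomposition of `(x)`. -/
def S_DEC : Prop := ∀ (K : Type) [Field K] [NumberField K] (q ρ : ℕ) (x : 𝓞 K), 1 ≤ q → x ≠ 0 →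
  Val K q ρ x → ∃ 𝔡 𝔞 : Ideal (𝓞 K), Ideal.span {x} = 𝔡 * 𝔞 ^ q ∧ 𝔞 ≠ ⊥ ∧ Small K q ρ 𝔡

/-- NUMD: the number of possible `𝔡`. -/
def S_NUMD : Prop := ∀ (K : Type) [Field K] [NumberField K] (q ρ k : ℕ), 1 ≤ q →
  (∀ P : Finset (Ideal (𝓞 K)), (∀ 𝔓 ∈ P, 𝔓.IsPrime ∧ 𝔓 ≠ ⊥ ∧ (ρ : 𝓞 K) ∈ 𝔓) → P.card ≤ k) →
  ∀ t : Finset (Ideal (𝓞 K)), (∀ 𝔡 ∈ t, Small K q ρ 𝔡) → t.card ≤ q ^ k

/-- SEL: number of classes modulo `q`-th powers. -/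
def S_SEL : Prop := ∀ (K : Type) [Field K] [NumberField K] (q ρ k : ℕ) (B : ℝ), 1 ≤ q → 1 ≤ B →
  (∀ P : Finset (Ideal (𝓞 K)), (∀ 𝔓 ∈ P, 𝔓.IsPrime ∧ 𝔓 ≠ ⊥ ∧ (ρ : 𝓞 K) ∈ 𝔓) → P.card ≤ k) →
  (∃ w : Fin (Module.finrank ℚ K) → 𝓞 K, LinearIndependent ℚ (fun i => (w i : K)) ∧
    ∀ i, ∀ σ : K →+* ℂ, ‖σ (w i : K)‖ ≤ B) →
  ∀ s : Finset (𝓞 K), (∀ x ∈ s, x ≠ 0 ∧ Val K q ρ x) →
  (∀ x ∈ s, ∀ y ∈ s, x ≠ y → ¬ ∃ z : K, (x : K) = (y : K) * z ^ q) →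
    (s.card : ℝ) ≤ (q : ℝ) ^ k * (((Module.finrank ℚ K : ℝ) * B) ^ (Module.finrank ℚ K)) ^
      (Module.finrank ℚ K + 1) * ((q : ℝ) ^ (Module.finrank ℚ K) * 6 ^ (2 * Module.finrank ℚ K))

/-- VAL: multiplicities of the factors `u - ζ^j γ`. -/
def S_VAL : Prop := ∀ (K : Type) [Field K] [NumberField K] (p q ρ : ℕ) (ζ γ : 𝓞 K) (u M b : ℤ),
  2 ≤ p → 1 ≤ q → IsPrimitiveRoot ζ p → M ≠ 0 → b ≠ 0 → p ∣ ρ →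
  (∀ ℓ : ℕ, ℓ.Prime → (ℓ : ℤ) ∣ M → ℓ ∣ ρ) →
  (∀ 𝔓 : Ideal (𝓞 K), 𝔓.IsPrime → 𝔓 ≠ ⊥ → γ ∈ 𝔓 → (ρ : 𝓞 K) ∈ 𝔓) →
  (u : 𝓞 K) ^ p + (M : 𝓞 K) * (b : 𝓞 K) ^ q = γ ^ p →
  ∀ j : ℕ, Val K q ρ ((u : 𝓞 K) - ζ ^ j * γ)

/-- BAS: a small basis of `ℚ(ζ, γ)`, `γ^p = G`. -/
def S_BAS : Prop := ∀ (p ρ : ℕ) (ζ γ : ℂ) (G : ℤ), 2 ≤ p → 1 ≤ ρ → IsPrimitiveRoot ζ p →
  γ ^ p = (G : ℂ) → G ≠ 0 → (∀ ℓ : ℕ, ℓ.Prime → (ℓ : ℤ) ∣ G → ℓ ∣ ρ) →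
  ∃ _ : NumberField (IntermediateField.adjoin ℚ ({ζ, γ} : Set ℂ)),
    Module.finrank ℚ (IntermediateField.adjoin ℚ ({ζ, γ} : Set ℂ)) ≤ p ^ 2 ∧
    ∃ w : Fin (Module.finrank ℚ (IntermediateField.adjoin ℚ ({ζ, γ} : Set ℂ))) →
        𝓞 (IntermediateField.adjoin ℚ ({ζ, γ} : Set ℂ)),
      LinearIndependent ℚ
        (fun i => (w i : IntermediateField.adjoin ℚ ({ζ, γ} : Set ℂ))) ∧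
      ∀ i, ∀ σ : (IntermediateField.adjoin ℚ ({ζ, γ} : Set ℂ)) →+* ℂ,
        ‖σ (w i : IntermediateField.adjoin ℚ ({ζ, γ} : Set ℂ))‖ ≤ (ρ : ℝ)

/-- DEG: degree of a field generated by `m` algebraic numbers of degree at most `d`. -/
def S_DEG : Prop := ∀ (m d : ℕ) (v : Fin m → ℂ) (P : Fin m → Polynomial ℚ),
  (∀ i, P i ≠ 0 ∧ (P i).natDegree ≤ d ∧ Polynomial.aeval (v i) (P i) = 0) →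
  FiniteDimensional ℚ (IntermediateField.adjoin ℚ (Set.range v)) ∧
    Module.finrank ℚ (IntermediateField.adjoin ℚ (Set.range v)) ≤ d ^ m

/-- ML: the main lemma. -/
def S_ML : Prop := ∀ p q : ℕ, 2 ≤ p → 2 ≤ q → ∃ C : ℕ, 1 ≤ C ∧
  ∀ (ρ T : ℕ) (G M : ℤ) (H : ℝ) (s : Finset ℤ), 1 ≤ ρ → 2 ≤ T → 3 ≤ H → p ∣ ρ →
  G ≠ 0 → M ≠ 0 → (∀ ℓ : ℕ, ℓ.Prime → (ℓ : ℤ) ∣ G * M → ℓ ∣ ρ) →
  (|G| : ℝ) ≤ H → (∀ u ∈ s, (|u| : ℝ) ≤ H ∧ ∃ b : ℤ, b ≠ 0 ∧ u ^ p + M * b ^ q = G) →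
    (s.card : ℝ) ≤ C * (ρ : ℝ) ^ C * (C * Real.log H) ^
      (C * (T : ℝ) ^ C + C * Real.log ρ / Real.log T)

/-- AN: choice of `T`. -/
def S_AN : Prop := ∀ C : ℕ, 1 ≤ C → ∃ κ : ℝ, 0 < κ ∧ ∀ δ : ℝ, 0 < δ → ∃ X₀ : ℕ, ∀ X : ℕ, X₀ ≤ X →
  ∃ T : ℕ, 2 ≤ T ∧
    (C * Real.log X) ^ (C * (T : ℝ) ^ C + C * (δ * Real.log X) / Real.log T) ≤ (X : ℝ) ^ (κ * δ)

/-- the radical -/
def rad (n : ℕ) : ℕ := ∏ p ∈ n.primeFactors, p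

/-- NA: number of integers with small radical. -/
def S_NA : Prop := ∀ δ : ℝ, 0 < δ → ∃ X₀ : ℕ, ∀ X : ℕ, X₀ ≤ X → ∀ s : Finset ℕ,
  (∀ n ∈ s, 1 ≤ n ∧ n ≤ X ∧ (rad n : ℝ) ≤ (X : ℝ) ^ δ) → (s.card : ℝ) ≤ (X : ℝ) ^ (4 * δ)

/-- `x` is a perfect power up to a factor of small radical -/
def AP (δ : ℝ) (X : ℕ) (x : ℤ) : Prop := ∃ (p : ℕ) (A a : ℤ), 2 ≤ p ∧ x = A * a ^ p ∧
  (rad A.natAbs : ℝ) ≤ (X : ℝ) ^ δ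

/-- GT: the general theorem. -/
def S_GT : Prop := ∀ ε : ℝ, 0 < ε → ∃ δ : ℝ, 0 < δ ∧ ∃ X₀ : ℕ, ∀ X : ℕ, X₀ ≤ X →
  ∀ s : Finset (ℤ × ℤ), (∀ w ∈ s, w.1 ≠ 0 ∧ w.2 ≠ 0 ∧ w.1 + w.2 ≠ 0 ∧
    w.1.natAbs ≤ X ∧ w.2.natAbs ≤ X ∧ (w.1 + w.2).natAbs ≤ X ∧
    (rad (w.1 + w.2).natAbs : ℝ) ≤ (X : ℝ) ^ δ ∧ AP δ X w.1 ∧ AP δ X w.2) →
    (s.card : ℝ) ≤ (X : ℝ) ^ ε

end Pool.Agent.W232.FC
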