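import Pool.Agent.W232.FC.GT3
import Pool.Agent.W232.FC.ML2
import Pool.Agent.W232.FC.Sel
import Pool.Agent.W214.FC.FCIdl
import Pool.Agent.W214.FC.FCIdv
import Pool.Agent.W308.FC.PRM
import Pool.Agent.W417.FC.REP
import Pool.Agent.W417.FC.UNI
import Pool.Agent.W417.FC.DEG
import Pool.Agent.W108.FC.DEC
import Pool.Agent.W108.FC.VAL
import Pool.Agent.W108.FC.BAS
import Pool.Agent.W505.FC.FCMain

namespace Pool.Agent.W232.FC

theorem t_INT : S_INT := Pool.Agent.W505.FC.INT.main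
theorem t_DIV : S_DIV := Pool.Agent.W505.FC.DIV.main t_INT
theorem t_IDL : S_IDL := Pool.Agent.W214.FC.Idl.main
theorem t_PRM : S_PRM := Pool.Agent.W308.FC.PRM.main t_IDL
theorem t_IDV : S_IDV := Pool.Agent.W214.FC.Idv.main
theorem t_REP : S_REP := Pool.Agent.W417.FC.REP.main
theorem t_UNI : S_UNI := Pool.Agent.W417.FC.UNI.main t_INT
theorem t_SEL : S_SEL := sel Pool.Agent.W108.FC.DEC.dec Pool.Agent.W108.FC.DEC.numd t_REP t_IDL t_UNI
theorem t_ML : S_ML := ml t_SEL t_PRM t_IDV t_DIV Pool.Agent.W108.FC.VAL.main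
  Pool.Agent.W108.FC.BAS.main Pool.Agent.W417.FC.DEG.main
theorem t_GT : S_GT := gt t_ML Pool.Agent.W505.FC.AN.main Pool.Agent.W505.FC.NA.main

end Pool.Agent.W232.FC
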