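import Pool.Agent.W232.FC.Prep

namespace Pool.Agent.W232.FC

open NumberField Classical Polynomial

/-- the bound for the number of elements `f` -/
noncomputable def Fb (p q ρ T : ℕ) (H : ℝ) : ℝ :=
  (4 * ((p * q) ^ 5 : ℕ) * Real.log H) ^
      ((T : ℝ) ^ ((p * q) ^ 5 + 1) + ((p * q) ^ 5 : ℕ) * Real.log ρ / Real.log T) *
    (5 * ((p * q) ^ 5 : ℕ) * Real.log H) ^ ((p * q) ^ 5) * 14 ^ (2 * (p * q) ^ 5)

theorem logH_ge {H : ℝ} (hH : 3 ≤ H) : 1 ≤ Real.log H := by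
  rw [Real.le_log_iff_exp_le (by linarith)]
  have := Real.exp_one_lt_d9
  linarith

theorem one_le_Fb (p q ρ T : ℕ) (H : ℝ) (hp : 2 ≤ p) (hq : 2 ≤ q) (hρ : 1 ≤ ρ) (hT : 2 ≤ T)
    (hH : 3 ≤ H) : 1 ≤ Fb p q ρ T H := by
  have hE : (1 : ℝ) ≤ (((p * q) ^ 5 : ℕ) : ℝ) := by
    exact_mod_cast Nat.one_le_pow _ _ (by positivity)
  have hL := logH_ge hH
  have h1 : (1 : ℝ) ≤ 4 * (((p * q) ^ 5 : ℕ) : ℝ) * Real.log H := by nlinarith
  have h2 : (1 : ℝ) ≤ 5 * (((p * q) ^ 5 : ℕ) : ℝ) * Real.log H := by nlinarith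
  have h3 : 0 ≤ (T : ℝ) ^ ((p * q) ^ 5 + 1) + ((p * q) ^ 5 : ℕ) * Real.log ρ / Real.log T := by
    have : 0 ≤ Real.log ρ := Real.log_nonneg (by exact_mod_cast hρ)
    have : 0 ≤ Real.log T := Real.log_nonneg (by exact_mod_cast (by omega : 1 ≤ T))
    positivity
  unfold Fb
  have a1 := Real.one_le_rpow h1 h3
  have a2 : (1 : ℝ) ≤ (5 * ((p * q) ^ 5 : ℕ) * Real.log H) ^ ((p * q) ^ 5) := one_le_pow₀ h2
  have a3 : (1 : ℝ) ≤ 14 ^ (2 * (p * q) ^ 5) := one_le_pow₀ (by norm_num)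
  exact one_le_mul_of_one_le_of_one_le (one_le_mul_of_one_le_of_one_le a1 a2) a3

/-- counting divisors of `n` in a field of degree at most `(pq)^5` -/
theorem divs (hPRM : S_PRM) (hIDV : S_IDV) (hDIV : S_DIV) {L : Type} [Field L] [NumberField L]
    (p q ρ T : ℕ) (H : ℝ) (n : 𝓞 L) (hp : 2 ≤ p) (hq : 2 ≤ q) (hρ : 1 ≤ ρ) (hT : 2 ≤ T)
    (hH : 3 ≤ H) (hn : n ≠ 0) (hD : Module.finrank ℚ L ≤ (p * q) ^ 5)
    (hprime : ∀ 𝔓 : Ideal (𝓞 L), 𝔓.IsPrime → n ∈ 𝔓 → (ρ : 𝓞 L) ∈ 𝔓)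
    (hnH : ∀ σ : L →+* ℂ, ‖σ (n : L)‖ ≤ 2 * H)
    (s : Finset (𝓞 L)) (hs : ∀ x ∈ s, x ∣ n ∧ ∀ σ : L →+* ℂ, ‖σ (x : L)‖ ≤ 4 * H) :
    (s.card : ℝ) ≤ Fb p q ρ T H := by
  set D := Module.finrank ℚ L with hDdef
  set E : ℕ := (p * q) ^ 5 with hEdef
  have hDE : (D : ℝ) ≤ E := by exact_mod_cast hD
  have hE1 : (1 : ℝ) ≤ E := by
    exact_mod_cast Nat.one_le_pow _ _ (by positivity)
  have hL := logH_ge hH
  have hlogρ : 0 ≤ Real.log ρ := Real.log_nonneg (by exact_mod_cast hρ)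
  have hlogT : 0 < Real.log T := Real.log_pos (by exact_mod_cast (by omega : 1 < T))
  have hTR : (1 : ℝ) ≤ T := by exact_mod_cast (by omega : 1 ≤ T)
  set kr : ℝ := (T : ℝ) ^ (D + 1) + D * Real.log ρ / Real.log T with hkr
  have hkr0 : 0 ≤ kr := by positivity
  have hk : ∀ P : Finset (Ideal (𝓞 L)), (∀ 𝔓 ∈ P, 𝔓.IsPrime ∧ 𝔓 ≠ ⊥ ∧ Ideal.span {n} ≤ 𝔓) →
      P.card ≤ ⌊kr⌋₊ := by
    intro P hP
    refine Nat.le_floor ?_
    refine hPRM L ρ T hρ hT P ?_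
    intro 𝔓 h𝔓
    obtain ⟨h1, h2, h3⟩ := hP 𝔓 h𝔓
    exact ⟨h1, h2, hprime 𝔓 h1 ((Ideal.span_singleton_le_iff_mem _).1 h3)⟩
  have hI : Ideal.span {n} ≠ ⊥ := by
    rw [Ne, Ideal.span_singleton_eq_bot]; exact hn
  have h1 := hIDV L (Ideal.span {n}) ⌊kr⌋₊ hI hk
  have h2 := hDIV L n ((Nat.log 2 (Ideal.absNorm (Ideal.span {n})) + 1) ^ ⌊kr⌋₊) (4 * H) hn
    (by linarith) h1 s hs
  refine h2.trans ?_
  unfold Fb
  rw [← hDdef, ← hEdef]
  have hnorm : (Ideal.absNorm (Ideal.span {n}) : ℝ) ≤ (2 * H) ^ D := absNorm_le n _ hnH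
  have hnorm0 : Ideal.absNorm (Ideal.span {n}) ≠ 0 := by
    rw [Ne, Ideal.absNorm_eq_zero_iff]; exact hI
  have hlog2 : (0.6931471803 : ℝ) < Real.log 2 := Real.log_two_gt_d9
  have hlog2' : Real.log 2 < (0.6931471808 : ℝ) := Real.log_two_lt_d9
  have hlog2H : Real.log (2 * H) ≤ 2 * Real.log H := by
    rw [Real.log_mul (by norm_num) (by linarith)]; linarith
  have hlog4H : Real.log (4 * H) ≤ 3 * Real.log H := by
    rw [Real.log_mul (by norm_num) (by linarith), show (4 : ℝ) = 2 * 2 by norm_num,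
      Real.log_mul (by norm_num) (by norm_num)]; linarith
  have hlog4H0 : 0 ≤ Real.log (4 * H) := Real.log_nonneg (by linarith)
  have hA : ((Nat.log 2 (Ideal.absNorm (Ideal.span {n})) + 1 : ℕ) : ℝ) ≤ 4 * E * Real.log H := by
    have h3 : (2 : ℝ) ^ (Nat.log 2 (Ideal.absNorm (Ideal.span {n}))) ≤ (2 * H) ^ D := by
      refine le_trans ?_ hnorm
      exact_mod_cast Nat.pow_log_le_self 2 hnorm0
    have h4 := Real.log_le_log (by positivity) h3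
    rw [Real.log_pow, Real.log_pow] at h4
    set l : ℝ := (Nat.log 2 (Ideal.absNorm (Ideal.span {n})) : ℝ) with hl
    have hl0 : 0 ≤ l := by positivity
    have h5 : (D : ℝ) * Real.log (2 * H) ≤ E * (2 * Real.log H) := by
      have : 0 ≤ Real.log (2 * H) := Real.log_nonneg (by linarith)
      gcongr
    push_cast
    rw [← hl]
    have h6 : l * 0.6931471803 ≤ E * (2 * Real.log H) := by
      have := mul_le_mul_of_nonneg_left hlog2.le hl0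
      linarith
    have h7 : 1 ≤ (E : ℝ) * Real.log H := by nlinarith
    nlinarith
  have hB1 : (1 : ℝ) ≤ 4 * E * Real.log H := by nlinarith
  have hS1 : (((Nat.log 2 (Ideal.absNorm (Ideal.span {n})) + 1) ^ ⌊kr⌋₊ : ℕ) : ℝ) ≤
      (4 * E * Real.log H) ^ ((T : ℝ) ^ (E + 1) + E * Real.log ρ / Real.log T) := by
    push_cast
    have hA' : ((Nat.log 2 (Ideal.absNorm (Ideal.span {n})) : ℝ) + 1) ≤ 4 * E * Real.log H := by
      push_cast at hA; exact hA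
    calc ((Nat.log 2 (Ideal.absNorm (Ideal.span {n})) : ℝ) + 1) ^ ⌊kr⌋₊
        ≤ (4 * E * Real.log H) ^ ⌊kr⌋₊ := by gcongr
      _ = (4 * E * Real.log H) ^ ((⌊kr⌋₊ : ℕ) : ℝ) := (Real.rpow_natCast _ _).symm
      _ ≤ _ := by
        refine Real.rpow_le_rpow_of_exponent_le hB1 ?_
        refine (Nat.floor_le hkr0).trans ?_
        rw [hkr]
        have : (T : ℝ) ^ (D + 1) ≤ (T : ℝ) ^ (E + 1) := pow_le_pow_right₀ hTR (by omega)
        gcongr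
  have hS2 : ((D : ℝ) * Real.log (4 * H) + 2) ^ D ≤ (5 * E * Real.log H) ^ E := by
    have h3 : (D : ℝ) * Real.log (4 * H) + 2 ≤ 5 * E * Real.log H := by
      have : (D : ℝ) * Real.log (4 * H) ≤ E * (3 * Real.log H) := by gcongr
      nlinarith
    have h4 : (1 : ℝ) ≤ 5 * E * Real.log H := by nlinarith
    calc ((D : ℝ) * Real.log (4 * H) + 2) ^ D ≤ (5 * E * Real.log H) ^ D := by
          gcongr
      _ ≤ (5 * E * Real.log H) ^ E := pow_le_pow_right₀ h4 hD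
  have hS3 : (14 : ℝ) ^ (2 * D) ≤ 14 ^ (2 * E) := pow_le_pow_right₀ (by norm_num) (by omega)
  have hp1 : 0 ≤ ((D : ℝ) * Real.log (4 * H) + 2) ^ D := by positivity
  exact mul_le_mul (mul_le_mul hS1 hS2 hp1 (Real.rpow_nonneg (by linarith) _)) hS3 (by positivity)
    (mul_nonneg (Real.rpow_nonneg (by linarith) _) (by positivity))

end Pool.Agent.W232.FC
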