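import Pool.Agent.W232.FC.Fib

namespace Pool.Agent.W232.FC

open NumberField Classical Polynomial

theorem poly_aux (p q : ℕ) (hp : 2 ≤ p) (hq : 2 ≤ q) (a G : ℤ) :
    ((C (a : ℚ) - X ^ q) ^ p - C (G : ℚ) : ℚ[X]) ≠ 0 ∧
      ((C (a : ℚ) - X ^ q) ^ p - C (G : ℚ) : ℚ[X]).natDegree ≤ p * q := by
  have h1 : (C (a : ℚ) - X ^ q : ℚ[X]).natDegree = q := by
    rw [show (C (a : ℚ) - X ^ q : ℚ[X]) = -(X ^ q - C (a : ℚ)) by ring, natDegree_neg,
      natDegree_X_pow_sub_C]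
  have h2 : ((C (a : ℚ) - X ^ q) ^ p - C (G : ℚ) : ℚ[X]).natDegree = p * q := by
    rw [natDegree_sub_C, natDegree_pow, h1]
  refine ⟨?_, h2.le⟩
  intro h
  rw [h, natDegree_zero] at h2
  have : 0 < p * q := by positivity
  omega

theorem norm_le_of_pow {x : ℝ} {n : ℕ} {B : ℝ} (hn : n ≠ 0) (_hx : 0 ≤ x) (hB : 1 ≤ B)
    (h : x ^ n ≤ B) : x ≤ B := by
  by_contra hcon
  push Not at hcon
  have h1 : (1 : ℝ) ≤ x := by linarith
  have h2 : x ≤ x ^ n := le_self_pow₀ h1 hn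
  linarith

theorem field_exists (hDEG : S_DEG) (p q : ℕ) (G : ℤ) (ζ ξ γ y0 y1 : ℂ) (a b : ℤ)
    (hp : 2 ≤ p) (hq : 2 ≤ q)
    (hζ : ζ ^ p = 1) (hξ : ξ ^ q = 1) (hγ : γ ^ p = (G : ℂ))
    (hy0 : y0 ^ q = (a : ℂ) - γ) (hy1 : y1 ^ q = (b : ℂ) - ζ * γ) :
    ∃ L : IntermediateField ℚ ℂ, FiniteDimensional ℚ L ∧ Module.finrank ℚ L ≤ (p * q) ^ 5 ∧
      ζ ∈ L ∧ γ ∈ L ∧ ξ ∈ L ∧ y0 ∈ L ∧ y1 ∈ L := by
  have hp0 : 0 < p := by omega
  have hq0 : 0 < q := by omega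
  have hdeg := hDEG 5 (p * q) ![ζ, γ, ξ, y0, y1]
    ![X ^ p - C 1, X ^ p - C (G : ℚ), X ^ q - C 1, (C (a : ℚ) - X ^ q) ^ p - C (G : ℚ),
      (C (b : ℚ) - X ^ q) ^ p - C (G : ℚ)] (by
    intro i
    have hpq1 : p ≤ p * q := Nat.le_mul_of_pos_right p hq0
    have hpq2 : q ≤ p * q := Nat.le_mul_of_pos_left q hp0
    fin_cases i
    · refine ⟨X_pow_sub_C_ne_zero hp0 _, ?_, ?_⟩
      · simp only [Fin.zero_eta, Matrix.cons_val_zero]
        rw [natDegree_X_pow_sub_C]; exact hpq1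
      · simp [hζ]
    · refine ⟨X_pow_sub_C_ne_zero hp0 _, ?_, ?_⟩
      · simp only [Fin.mk_one, Matrix.cons_val_one, Matrix.cons_val_zero]
        rw [natDegree_X_pow_sub_C]; exact hpq1
      · simp [hγ]
    · refine ⟨X_pow_sub_C_ne_zero hq0 _, ?_, ?_⟩
      · simp only [Fin.reduceFinMk, Matrix.cons_val]
        rw [natDegree_X_pow_sub_C]; exact hpq2
      · simp [hξ]
    · refine ⟨(poly_aux p q hp hq a G).1, (poly_aux p q hp hq a G).2, ?_⟩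
      simp [hy0, hγ]
    · refine ⟨(poly_aux p q hp hq b G).1, (poly_aux p q hp hq b G).2, ?_⟩
      simp [hy1, mul_pow, hγ, hζ])
  obtain ⟨hfin, hdeg⟩ := hdeg
  have hmem : ∀ i, ![ζ, γ, ξ, y0, y1] i ∈
      IntermediateField.adjoin ℚ (Set.range ![ζ, γ, ξ, y0, y1]) := fun i =>
    IntermediateField.subset_adjoin ℚ _ ⟨i, rfl⟩
  exact ⟨_, hfin, hdeg, hmem 0, hmem 1, hmem 2, hmem 3, hmem 4⟩

theorem fibre (hPRM : S_PRM) (hIDV : S_IDV) (hDIV : S_DIV) (hDEG : S_DEG)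
    (p q ρ T : ℕ) (G : ℤ) (H : ℝ) (ζ ξ γ : ℂ) (a b : ℤ) (F : Finset ℤ)
    (hp : 2 ≤ p) (hq : 2 ≤ q) (hρ : 1 ≤ ρ) (hT : 2 ≤ T) (hH : 3 ≤ H) (hpρ : p ∣ ρ) (hG : G ≠ 0)
    (hGρ : ∀ ℓ : ℕ, ℓ.Prime → (ℓ : ℤ) ∣ G → ℓ ∣ ρ) (hGH : (|G| : ℝ) ≤ H)
    (hζ : IsPrimitiveRoot ζ p) (hξ : IsPrimitiveRoot ξ q) (hγ : γ ^ p = (G : ℂ))
    (hF : ∀ u ∈ F, (|u| : ℝ) ≤ H ∧ (∃ z ∈ IntermediateField.adjoin ℚ ({ζ, γ} : Set ℂ),
      (u : ℂ) - γ = ((a : ℂ) - γ) * z ^ q) ∧ (∃ z ∈ IntermediateField.adjoin ℚ ({ζ, γ} : Set ℂ),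
      (u : ℂ) - ζ * γ = ((b : ℂ) - ζ * γ) * z ^ q)) :
    (F.card : ℝ) ≤ Fb p q ρ T H ^ 2 := by
  have hp0 : 0 < p := by omega
  have hq0 : 0 < q := by omega
  obtain ⟨y0, hy0⟩ := IsAlgClosed.exists_pow_nat_eq ((a : ℂ) - γ) hq0
  obtain ⟨y1, hy1⟩ := IsAlgClosed.exists_pow_nat_eq ((b : ℂ) - ζ * γ) hq0
  have hγ0 : γ ≠ 0 := by
    rintro rfl
    rw [zero_pow (by omega)] at hγ
    exact hG (by exact_mod_cast hγ.symm)
  obtain ⟨L, hfin, hdeg, hζL, hγL, hξL, hy0L, hy1L⟩ := field_exists hDEG p q G ζ ξ γ y0 y1 a b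
    hp hq hζ.pow_eq_one hξ.pow_eq_one hγ hy0 hy1
  have : NumberField L := { to_charZero := inferInstance, to_finiteDimensional := hfin }
  have hKL : IntermediateField.adjoin ℚ ({ζ, γ} : Set ℂ) ≤ L := by
    rw [IntermediateField.adjoin_le_iff]
    rintro x (rfl | rfl)
    · exact hζL
    · exact hγL
  have hζi : IsIntegral ℤ ζ := hζ.isIntegral hp0
  have hξi : IsIntegral ℤ ξ := hξ.isIntegral hq0
  have hγi : IsIntegral ℤ γ := by
    refine IsIntegral.of_pow hp0 ?_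
    rw [hγ]
    exact isIntegral_algebraMap (R := ℤ) (A := ℂ) (x := G)
  obtain ⟨ζo, hζo⟩ := mkInt L hζL hζi
  obtain ⟨ξo, hξo⟩ := mkInt L hξL hξi
  obtain ⟨γo, hγo⟩ := mkInt L hγL hγi
  have hinj0 : ∀ x y : 𝓞 L, ((x : L) : ℂ) = ((y : L) : ℂ) → x = y := by
    intro x y h
    exact RingOfIntegers.ext (Subtype.ext h)
  obtain ⟨φ, hφ⟩ : ∃ φ : 𝓞 L →+* ℂ, ∀ x : 𝓞 L, φ x = ((x : L) : ℂ) :=
    ⟨(L.val : L →+* ℂ).comp (algebraMap (𝓞 L) L), fun x => rfl⟩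
  have hinj : ∀ x y : 𝓞 L, φ x = φ y → x = y := by
    intro x y h
    rw [hφ, hφ] at h
    exact hinj0 x y h
  rw [← hφ] at hζo hξo hγo
  have hint : ∀ n : ℤ, IsIntegral ℤ (n : ℂ) := fun n =>
    isIntegral_algebraMap (R := ℤ) (A := ℂ) (x := n)
  -- the roots
  have hY : ∀ u : ℤ, ∃ Y0 Y1 : 𝓞 L, u ∈ F → (φ Y0 ^ q = (u : ℂ) - γ ∧
      φ Y1 ^ q = (u : ℂ) - ζ * γ) := by
    intro u
    by_cases hu : u ∈ F
    · obtain ⟨-, ⟨z0, hz0, e0⟩, ⟨z1, hz1, e1⟩⟩ := hF u hu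
      have f0 : (y0 * z0) ^ q = (u : ℂ) - γ := by rw [mul_pow, hy0, e0]
      have f1 : (y1 * z1) ^ q = (u : ℂ) - ζ * γ := by rw [mul_pow, hy1, e1]
      obtain ⟨Y0, hY0⟩ := mkInt L (mul_mem hy0L (hKL hz0)) (IsIntegral.of_pow hq0 (by
        rw [f0]; exact (hint u).sub hγi))
      obtain ⟨Y1, hY1⟩ := mkInt L (mul_mem hy1L (hKL hz1)) (IsIntegral.of_pow hq0 (by
        rw [f1]; exact (hint u).sub (hζi.mul hγi)))
      exact ⟨Y0, Y1, fun _ => ⟨by rw [hφ, hY0, f0], by rw [hφ, hY1, f1]⟩⟩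
    · exact ⟨0, 0, fun h => absurd h hu⟩
  choose Y0 Y1 hY using hY
  set n : 𝓞 L := (ζo - 1) * γo with hn
  have hnc : φ n = (ζ - 1) * γ := by
    rw [hn, map_mul, map_sub, map_one, hζo, hγo]
  have hζ1 : ζ ≠ 1 := hζ.ne_one (by omega)
  have hn0 : n ≠ 0 := by
    intro h
    rw [h, map_zero] at hnc
    have : (ζ - 1) * γ = 0 := hnc.symm
    rcases mul_eq_zero.1 this with h | h
    · exact hζ1 (sub_eq_zero.1 h)
    · exact hγ0 h
  have hξo' : IsPrimitiveRoot ξo q := by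
    refine IsPrimitiveRoot.of_map_of_injective (f := φ) ?_ ?_
    · rw [hξo]; exact hξ
    · intro x y h
      exact hinj x y h
  have hζo' : IsPrimitiveRoot ζo p := by
    refine IsPrimitiveRoot.of_map_of_injective (f := φ) ?_ ?_
    · rw [hζo]; exact hζ
    · intro x y h
      exact hinj x y h
  have hγo' : γo ^ p = (G : 𝓞 L) := by
    apply hinj
    rw [map_pow, hγo, hγ, map_intCast]
  have hdvd : ∀ u ∈ F, (Y0 u - Y1 u) ∣ n ∧ (Y0 u - ξo * Y1 u) ∣ n := by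
    intro u hu
    have h1 : Y0 u ^ q - Y1 u ^ q = n := by
      apply hinj
      obtain ⟨e0, e1⟩ := hY u hu
      rw [map_sub, map_pow, map_pow, e0, e1, hnc]
      ring
    rw [← h1, hξo'.pow_sub_pow_eq_prod_sub_mul (Y0 u) (Y1 u) hq0]
    constructor
    · have := Finset.dvd_prod_of_mem (fun t => Y0 u - t * Y1 u)
        (a := (1 : 𝓞 L)) (s := nthRootsFinset q (1 : 𝓞 L))
        (by rw [mem_nthRootsFinset hq0]; exact one_pow q)
      simpa using this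
    · exact Finset.dvd_prod_of_mem (fun t => Y0 u - t * Y1 u)
        (a := ξo) (s := nthRootsFinset q (1 : 𝓞 L))
        (by rw [mem_nthRootsFinset hq0]; exact hξo'.pow_eq_one)
  -- sizes
  have hcomp : ∀ (σ : L →+* ℂ) (x : 𝓞 L), (σ.comp (algebraMap (𝓞 L) L)) x = σ (x : L) :=
    fun σ x => rfl
  have hσζ : ∀ σ : L →+* ℂ, ‖σ (ζo : L)‖ = 1 := by
    intro σ
    have : (σ (ζo : L)) ^ p = 1 := by
      rw [← hcomp, ← map_pow, hζo'.pow_eq_one, map_one]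
    exact Complex.norm_eq_one_of_pow_eq_one this (by omega)
  have hσξ : ∀ σ : L →+* ℂ, ‖σ (ξo : L)‖ = 1 := by
    intro σ
    have : (σ (ξo : L)) ^ q = 1 := by
      rw [← hcomp, ← map_pow, hξo'.pow_eq_one, map_one]
    exact Complex.norm_eq_one_of_pow_eq_one this (by omega)
  have hσγ : ∀ σ : L →+* ℂ, ‖σ (γo : L)‖ ≤ H := by
    intro σ
    have h1 : (σ (γo : L)) ^ p = (G : ℂ) := by
      rw [← hcomp, ← map_pow, hγo', map_intCast]
    refine norm_le_of_pow (n := p) (by omega) (norm_nonneg _) (by linarith) ?_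
    rw [← norm_pow, h1, Complex.norm_intCast]
    exact_mod_cast hGH
  have hσY : ∀ u ∈ F, ∀ σ : L →+* ℂ, ‖σ (Y0 u : L)‖ ≤ 2 * H ∧ ‖σ (Y1 u : L)‖ ≤ 2 * H := by
    intro u hu σ
    obtain ⟨e0, e1⟩ := hY u hu
    have huH := (hF u hu).1
    have g0 : (Y0 u) ^ q = (u : 𝓞 L) - γo := by
      apply hinj
      rw [map_pow, e0, map_sub, map_intCast, hγo]
    have g1 : (Y1 u) ^ q = (u : 𝓞 L) - ζo * γo := by
      apply hinj
      rw [map_pow, e1, map_sub, map_intCast, map_mul, hγo, hζo]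
    have k0 : (σ (Y0 u : L)) ^ q = (u : ℂ) - σ (γo : L) := by
      rw [← hcomp, ← hcomp, ← map_pow, g0, map_sub, map_intCast]
    have k1 : (σ (Y1 u : L)) ^ q = (u : ℂ) - σ (ζo : L) * σ (γo : L) := by
      rw [← hcomp, ← hcomp, ← hcomp, ← map_pow, g1, map_sub, map_intCast, map_mul]
    have hu' : ‖(u : ℂ)‖ ≤ H := by
      rw [Complex.norm_intCast]; exact_mod_cast huH
    constructor
    · refine norm_le_of_pow (n := q) (by omega) (norm_nonneg _) (by linarith) ?_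
      rw [← norm_pow, k0]
      refine (norm_sub_le _ _).trans ?_
      linarith [hσγ σ]
    · refine norm_le_of_pow (n := q) (by omega) (norm_nonneg _) (by linarith) ?_
      rw [← norm_pow, k1]
      refine (norm_sub_le _ _).trans ?_
      rw [norm_mul, hσζ σ, one_mul]
      linarith [hσγ σ]
  have hnH : ∀ σ : L →+* ℂ, ‖σ (n : L)‖ ≤ 2 * H := by
    intro σ
    have : σ (n : L) = (σ (ζo : L) - 1) * σ (γo : L) := by
      rw [← hcomp, ← hcomp, ← hcomp, hn, map_mul, map_sub, map_one]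
    rw [this, norm_mul]
    have h1 : ‖σ (ζo : L) - 1‖ ≤ 2 := by
      refine (norm_sub_le _ _).trans ?_
      rw [hσζ σ, norm_one]; norm_num
    exact mul_le_mul h1 (hσγ σ) (norm_nonneg _) (by norm_num)
  have hprime : ∀ 𝔓 : Ideal (𝓞 L), 𝔓.IsPrime → n ∈ 𝔓 → (ρ : 𝓞 L) ∈ 𝔓 := by
    intro 𝔓 h𝔓 hn𝔓
    rcases h𝔓.mem_or_mem hn𝔓 with h | h
    · have h1 : (p : 𝓞 L) ∈ 𝔓 := by
        have h2 : (1 - ζo) ∣ (p : 𝓞 L) := by
          obtain ⟨m, rfl⟩ : ∃ m, p = m + 1 := ⟨p - 1, by omega⟩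
          have h3 := hζo'.prod_one_sub_pow_eq_order
          push_cast
          rw [← h3]
          have := Finset.dvd_prod_of_mem (fun k => 1 - ζo ^ (k + 1)) (a := 0)
            (s := Finset.range m) (by rw [Finset.mem_range]; omega)
          simpa using this
        obtain ⟨c, hc⟩ := h2
        rw [hc]
        refine 𝔓.mul_mem_right _ ?_
        have := 𝔓.neg_mem h
        rwa [neg_sub] at this
      obtain ⟨c, rfl⟩ := hpρ
      push_cast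
      exact 𝔓.mul_mem_right _ h1
    · refine mem_of_int 𝔓 h𝔓 ρ G hG hGρ ?_
      rw [← hγo']
      exact Ideal.pow_mem_of_mem 𝔓 h p hp0
  -- counting
  have hcnt : ∀ s : Finset (𝓞 L), (∀ x ∈ s, x ∣ n ∧ ∀ σ : L →+* ℂ, ‖σ (x : L)‖ ≤ 4 * H) →
      (s.card : ℝ) ≤ Fb p q ρ T H := fun s hs =>
    divs hPRM hIDV hDIV p q ρ T H n hp hq hρ hT hH hn0 hdeg hprime hnH s hs
  have hc0 := hcnt (F.image (fun u => Y0 u - Y1 u)) (by
    intro x hx
    rw [Finset.mem_image] at hx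
    obtain ⟨u, hu, rfl⟩ := hx
    refine ⟨(hdvd u hu).1, fun σ => ?_⟩
    rw [← hcomp, map_sub, hcomp, hcomp]
    refine (norm_sub_le _ _).trans ?_
    linarith [(hσY u hu σ).1, (hσY u hu σ).2])
  have hc1 := hcnt (F.image (fun u => Y0 u - ξo * Y1 u)) (by
    intro x hx
    rw [Finset.mem_image] at hx
    obtain ⟨u, hu, rfl⟩ := hx
    refine ⟨(hdvd u hu).2, fun σ => ?_⟩
    rw [← hcomp, map_sub, map_mul, hcomp, hcomp, hcomp]
    refine (norm_sub_le _ _).trans ?_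
    rw [norm_mul, hσξ σ, one_mul]
    linarith [(hσY u hu σ).1, (hσY u hu σ).2])
  have hinjF : Set.InjOn (fun u => (Y0 u - Y1 u, Y0 u - ξo * Y1 u)) (F : Set ℤ) := by
    intro u hu v hv huv
    simp only [Prod.mk.injEq] at huv
    obtain ⟨h1, h2⟩ := huv
    have hξ1 : ξo - 1 ≠ 0 := sub_ne_zero.2 (hξo'.ne_one (by omega))
    have h3 : (ξo - 1) * (Y1 u - Y1 v) = 0 := by linear_combination h1 - h2
    have h4 : Y1 u = Y1 v := by
      rcases mul_eq_zero.1 h3 with h | h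
      · exact absurd h hξ1
      · exact sub_eq_zero.1 h
    have h5 : Y0 u = Y0 v := by
      rw [h4] at h1; exact sub_left_injective h1
    have e1 := (hY u hu).1
    have e2 := (hY v hv).1
    rw [h5, e2] at e1
    have : (u : ℂ) = (v : ℂ) := by linear_combination -e1
    exact_mod_cast this
  have hFc : F.card ≤ (F.image (fun u => Y0 u - Y1 u)).card *
      (F.image (fun u => Y0 u - ξo * Y1 u)).card := by
    rw [← Finset.card_product, ← Finset.card_image_of_injOn hinjF]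
    refine Finset.card_le_card ?_
    intro x hx
    rw [Finset.mem_image] at hx
    obtain ⟨u, hu, rfl⟩ := hx
    exact Finset.mem_product.2 ⟨Finset.mem_image_of_mem _ hu, Finset.mem_image_of_mem _ hu⟩
  calc (F.card : ℝ) ≤ ((F.image (fun u => Y0 u - Y1 u)).card : ℝ) *
      ((F.image (fun u => Y0 u - ξo * Y1 u)).card : ℝ) := by exact_mod_cast hFc
    _ ≤ Fb p q ρ T H * Fb p q ρ T H :=
        mul_le_mul hc0 hc1 (by positivity)
          (zero_le_one.trans (one_le_Fb p q ρ T H hp hq hρ hT hH))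
    _ = _ := by ring

end Pool.Agent.W232.FC
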