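import Pool.Agent.W232.FC.Stm

namespace Pool.Agent.W232.FC

open Classical

theorem rad_pos (n : ℕ) : 1 ≤ rad n := by
  unfold rad
  exact Nat.one_le_iff_ne_zero.2 (Finset.prod_ne_zero_iff.2 fun p hp =>
    (Nat.prime_of_mem_primeFactors hp).ne_zero)

theorem dvd_rad {n ℓ : ℕ} (hn : n ≠ 0) (hℓ : ℓ.Prime) (h : ℓ ∣ n) : ℓ ∣ rad n :=
  Finset.dvd_prod_of_mem (fun p => p) (Nat.mem_primeFactors.2 ⟨hℓ, h, hn⟩)

/-- integers of absolute value at most `X` and radical at most `Y` -/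
noncomputable def SZ (X : ℕ) (Y : ℝ) : Finset ℤ :=
  (Finset.Icc (-(X : ℤ)) X).filter (fun n => n ≠ 0 ∧ (rad n.natAbs : ℝ) ≤ Y)

theorem mem_SZ {X : ℕ} {Y : ℝ} {n : ℤ} (h0 : n ≠ 0) (h1 : n.natAbs ≤ X)
    (h2 : (rad n.natAbs : ℝ) ≤ Y) : n ∈ SZ X Y := by
  unfold SZ
  rw [Finset.mem_filter, Finset.mem_Icc]
  refine ⟨⟨by omega, by omega⟩, h0, h2⟩

theorem card_SZ {X : ℕ} {Y R : ℝ}
    (h : ∀ s : Finset ℕ, (∀ n ∈ s, 1 ≤ n ∧ n ≤ X ∧ (rad n : ℝ) ≤ Y) → (s.card : ℝ) ≤ R) :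
    ((SZ X Y).card : ℝ) ≤ 2 * R := by
  have h1 := h ((SZ X Y).image Int.natAbs) (by
    intro n hn
    rw [Finset.mem_image] at hn
    obtain ⟨m, hm, rfl⟩ := hn
    unfold SZ at hm
    rw [Finset.mem_filter, Finset.mem_Icc] at hm
    refine ⟨by omega, by omega, hm.2.2⟩)
  have h2 : (SZ X Y).card ≤ 2 * ((SZ X Y).image Int.natAbs).card := by
    refine Finset.card_le_mul_card_image _ 2 ?_
    intro n _
    have : (SZ X Y).filter (fun x => x.natAbs = n) ⊆ {(n : ℤ), -(n : ℤ)} := by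
      intro x hx
      rw [Finset.mem_filter] at hx
      rw [Finset.mem_insert, Finset.mem_singleton]
      omega
    exact (Finset.card_le_card this).trans Finset.card_le_two
  have h3 : ((SZ X Y).card : ℝ) ≤ 2 * (((SZ X Y).image Int.natAbs).card : ℝ) := by
    exact_mod_cast h2
  linarith

/-- the values of `p`-th powers, `p ≥ Q` -/
theorem powers (X Q K : ℕ) (hX : 2 ≤ X) (_hQ : 1 ≤ Q) (hK : ∀ n : ℕ, n ^ Q ≤ X → n ≤ K) :
    ∀ (p : ℕ) (a : ℤ), Q ≤ p → a ≠ 0 → (a ^ p).natAbs ≤ X →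
      a ^ p ∈ ((Finset.Icc (-(K : ℤ)) K) ×ˢ (Finset.range (Nat.log 2 X + 1))).image
        (fun t => t.1 ^ t.2) := by
  intro p a hp ha h
  rw [Finset.mem_image]
  have hL : 1 ≤ Nat.log 2 X := Nat.log_pos (by norm_num) hX
  have hK1 : 1 ≤ K := hK 1 (by rw [one_pow]; omega)
  have ha1 : 1 ≤ a.natAbs := Int.natAbs_pos.2 ha
  rw [Int.natAbs_pow] at h
  by_cases h1 : a.natAbs = 1
  · have h2 : (a ^ p).natAbs = 1 := by rw [Int.natAbs_pow, h1, one_pow]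
    refine ⟨(a ^ p, 1), ?_, by simp⟩
    rw [Finset.mem_product, Finset.mem_Icc, Finset.mem_range]
    refine ⟨⟨by simp only; omega, by simp only; omega⟩, by simp only; omega⟩
  · have h2 : 2 ≤ a.natAbs := by omega
    have h3 : a.natAbs ^ Q ≤ X := (Nat.pow_le_pow_right (by omega) hp).trans h
    have h4 := hK _ h3
    have h5 : 2 ^ p ≤ X := (Nat.pow_le_pow_left h2 p).trans h
    have h6 : p ≤ Nat.log 2 X := Nat.le_log_of_pow_le (by norm_num) h5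
    refine ⟨(a, p), ?_, rfl⟩
    rw [Finset.mem_product, Finset.mem_Icc, Finset.mem_range]
    exact ⟨⟨by simp only; omega, by simp only; omega⟩, by simp only; omega⟩

/-- the trivial part: one exponent is at least `Q` -/
theorem trivial_part (X Q K : ℕ) (Y : ℝ) (hX : 2 ≤ X) (hQ : 1 ≤ Q)
    (hK : ∀ n : ℕ, n ^ Q ≤ X → n ≤ K) (s : Finset (ℤ × ℤ))
    (hs : ∀ w ∈ s, w.1 ≠ 0 ∧ w.1 + w.2 ≠ 0 ∧ w.1.natAbs ≤ X ∧ (w.1 + w.2).natAbs ≤ X ∧
      (rad (w.1 + w.2).natAbs : ℝ) ≤ Y ∧ ∃ (p : ℕ) (A a : ℤ), Q ≤ p ∧ w.1 = A * a ^ p ∧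
        (rad A.natAbs : ℝ) ≤ Y) :
    s.card ≤ (SZ X Y).card ^ 2 * ((2 * K + 1) * (Nat.log 2 X + 1)) := by
  have h1 : ∀ w : ℤ × ℤ, ∃ (A v : ℤ), w ∈ s → (w.1 = A * v ∧ A ∈ SZ X Y ∧
      v ∈ ((Finset.Icc (-(K : ℤ)) K) ×ˢ (Finset.range (Nat.log 2 X + 1))).image
        (fun t => t.1 ^ t.2)) := by
    intro w
    by_cases hw : w ∈ s
    · obtain ⟨e1, e2, e3, e4, e5, p, A, a, e6, e7, e8⟩ := hs w hw
      have hA : A ≠ 0 := by
        rintro rfl
        rw [zero_mul] at e7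
        exact e1 e7
      have hp0 : p ≠ 0 := by omega
      have ha : a ≠ 0 := by
        rintro rfl
        rw [zero_pow hp0, mul_zero] at e7
        exact e1 e7
      have hAp : 1 ≤ A.natAbs := Int.natAbs_pos.2 hA
      have hap : 1 ≤ (a ^ p).natAbs := Int.natAbs_pos.2 (pow_ne_zero _ ha)
      have e9 : A.natAbs * (a ^ p).natAbs ≤ X := by
        rw [← Int.natAbs_mul, ← e7]; exact e3
      refine ⟨A, a ^ p, fun _ => ⟨e7, mem_SZ hA ?_ e8, powers X Q K hX hQ hK p a e6 ha ?_⟩⟩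
      · exact (Nat.le_mul_of_pos_right _ hap).trans e9
      · exact (Nat.le_mul_of_pos_left _ hAp).trans e9
    · exact ⟨0, 0, fun h => absurd h hw⟩
  choose A v h using h1
  have hinj : Set.InjOn (fun w : ℤ × ℤ => ((A w, w.1 + w.2), v w)) (s : Set (ℤ × ℤ)) := by
    intro w hw w' hw' he
    simp only [Prod.mk.injEq] at he
    obtain ⟨⟨e1, e2⟩, e3⟩ := he
    have f1 := (h w hw).1
    have f2 := (h w' hw').1
    have f3 : w.1 = w'.1 := by rw [f1, f2, e1, e3]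
    exact Prod.ext f3 (by omega)
  rw [← Finset.card_image_of_injOn hinj]
  have hsub : s.image (fun w : ℤ × ℤ => ((A w, w.1 + w.2), v w)) ⊆ ((SZ X Y) ×ˢ (SZ X Y)) ×ˢ
      (((Finset.Icc (-(K : ℤ)) K) ×ˢ (Finset.range (Nat.log 2 X + 1))).image
        (fun t => t.1 ^ t.2)) := by
    intro x hx
    rw [Finset.mem_image] at hx
    obtain ⟨w, hw, rfl⟩ := hx
    obtain ⟨e1, e2, e3, e4, e5, -⟩ := hs w hw
    rw [Finset.mem_product, Finset.mem_product]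
    exact ⟨⟨(h w hw).2.1, mem_SZ e2 e4 e5⟩, (h w hw).2.2⟩
  refine (Finset.card_le_card hsub).trans ?_
  rw [Finset.card_product, Finset.card_product, ← pow_two]
  refine Nat.mul_le_mul_left _ (Finset.card_image_le.trans ?_)
  rw [Finset.card_product, Finset.card_range, Int.card_Icc]
  refine Nat.mul_le_mul_right _ ?_
  omega

end Pool.Agent.W232.FC
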