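import Pool.Agent.W232.FC.GT1

namespace Pool.Agent.W232.FC

open Classical

/-- the main part: both exponents are less than `Q` -/
theorem main_part (X Q : ℕ) (Y W : ℝ) (hW0 : 0 ≤ W)
    (hW : ∀ (p q : ℕ) (A B z : ℤ), 2 ≤ p → p < Q → 2 ≤ q → q < Q → A ∈ SZ X Y → B ∈ SZ X Y →
      z ∈ SZ X Y → ∀ F : Finset ℤ, (∀ u ∈ F, u.natAbs ≤ X ∧ ∃ b : ℤ, b ≠ 0 ∧
        u ^ p + (A ^ (p - 1) * B) * b ^ q = A ^ (p - 1) * z) → (F.card : ℝ) ≤ W)
    (s : Finset (ℤ × ℤ))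
    (hs : ∀ w ∈ s, w.1 ≠ 0 ∧ w.2 ≠ 0 ∧ w.1 + w.2 ≠ 0 ∧ w.1.natAbs ≤ X ∧ w.2.natAbs ≤ X ∧
      (w.1 + w.2).natAbs ≤ X ∧ (rad (w.1 + w.2).natAbs : ℝ) ≤ Y ∧
      (∃ (p : ℕ) (A a : ℤ), 2 ≤ p ∧ p < Q ∧ w.1 = A * a ^ p ∧ (rad A.natAbs : ℝ) ≤ Y) ∧
      ∃ (q : ℕ) (B b : ℤ), 2 ≤ q ∧ q < Q ∧ w.2 = B * b ^ q ∧ (rad B.natAbs : ℝ) ≤ Y) :
    (s.card : ℝ) ≤ (Q : ℝ) ^ 2 * ((SZ X Y).card : ℝ) ^ 3 * W := by
  have h1 : ∀ w : ℤ × ℤ, ∃ (p q : ℕ) (A B a b : ℤ), w ∈ s → (2 ≤ p ∧ p < Q ∧ 2 ≤ q ∧ q < Q ∧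
      A ∈ SZ X Y ∧ B ∈ SZ X Y ∧ w.1 = A * a ^ p ∧ w.2 = B * b ^ q ∧ A ≠ 0 ∧ b ≠ 0 ∧
      (A * a).natAbs ≤ X) := by
    intro w
    by_cases hw : w ∈ s
    · obtain ⟨e1, e2, e3, e4, e5, e6, e7, ⟨p, A, a, p1, p2, p3, p4⟩, ⟨q, B, b, q1, q2, q3, q4⟩⟩ :=
        hs w hw
      have hA : A ≠ 0 := by
        rintro rfl
        rw [zero_mul] at p3
        exact e1 p3
      have hB : B ≠ 0 := by
        rintro rfl
        rw [zero_mul] at q3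
        exact e2 q3
      have ha : a ≠ 0 := by
        rintro rfl
        rw [zero_pow (by omega), mul_zero] at p3
        exact e1 p3
      have hb : b ≠ 0 := by
        rintro rfl
        rw [zero_pow (by omega), mul_zero] at q3
        exact e2 q3
      have ha1 : 1 ≤ a.natAbs := Int.natAbs_pos.2 ha
      have hb1 : 1 ≤ b.natAbs := Int.natAbs_pos.2 hb
      have k1 : A.natAbs * a.natAbs ^ p ≤ X := by
        rw [← Int.natAbs_pow, ← Int.natAbs_mul, ← p3]; exact e4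
      have k2 : B.natAbs * b.natAbs ^ q ≤ X := by
        rw [← Int.natAbs_pow, ← Int.natAbs_mul, ← q3]; exact e5
      refine ⟨p, q, A, B, a, b, fun _ => ⟨p1, p2, q1, q2, mem_SZ hA ?_ p4, mem_SZ hB ?_ q4, p3, q3,
        hA, hb, ?_⟩⟩
      · exact (Nat.le_mul_of_pos_right _ (by positivity)).trans k1
      · exact (Nat.le_mul_of_pos_right _ (by positivity)).trans k2
      · rw [Int.natAbs_mul]
        refine le_trans (Nat.mul_le_mul_left _ ?_) k1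
        exact Nat.le_self_pow (by omega) _
    · exact ⟨0, 0, 0, 0, 0, 0, fun h => absurd h hw⟩
  choose p q A B a b h using h1
  set g : ℤ × ℤ → ((ℕ × ℕ) × (ℤ × ℤ)) × ℤ := fun w => (((p w, q w), (A w, B w)), w.1 + w.2)
    with hg
  have hcard : s.card ≤ ⌊W⌋₊ * (s.image g).card := by
    refine Finset.card_le_mul_card_image s _ ?_
    rintro t ht
    rw [Finset.mem_image] at ht
    obtain ⟨w0, hw0, rfl⟩ := ht
    obtain ⟨m1, m2, m3, m4, m5, m6, m7, m8, m9, m10, m11⟩ := h w0 hw0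
    obtain ⟨n1, n2, n3, n4, n5, n6, n7, -⟩ := hs w0 hw0
    have hfe : ∀ w ∈ s.filter (fun w => g w = g w0), w ∈ s ∧ p w = p w0 ∧ q w = q w0 ∧
        A w = A w0 ∧ B w = B w0 ∧ w.1 + w.2 = w0.1 + w0.2 := by
      intro w hw
      rw [Finset.mem_filter, hg] at hw
      simp only [Prod.mk.injEq] at hw
      exact ⟨hw.1, hw.2.1.1.1, hw.2.1.1.2, hw.2.1.2.1, hw.2.1.2.2, hw.2.2⟩
    have hinj : Set.InjOn (fun w : ℤ × ℤ => A w * a w)
        ((s.filter (fun w => g w = g w0) : Finset (ℤ × ℤ)) : Set (ℤ × ℤ)) := by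
      intro w hw w' hw' he
      obtain ⟨k1, k2, k3, k4, k5, k6⟩ := hfe w hw
      obtain ⟨l1, l2, l3, l4, l5, l6⟩ := hfe w' hw'
      simp only at he
      obtain ⟨-, -, -, -, -, -, r1, -⟩ := h w k1
      obtain ⟨-, -, -, -, -, -, r2, -⟩ := h w' l1
      have hA : A w = A w' := by rw [k4, l4]
      have hA0 : A w' ≠ 0 := by rw [l4]; exact m9
      have ha : a w = a w' := by
        rw [hA] at he
        exact mul_left_cancel₀ hA0 he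
      have hpp : p w = p w' := by rw [k2, l2]
      have f3 : w.1 = w'.1 := by rw [r1, r2, hA, ha, hpp]
      exact Prod.ext f3 (by omega)
    rw [← Finset.card_image_of_injOn hinj]
    refine Nat.le_floor ?_
    refine hW (p w0) (q w0) (A w0) (B w0) (w0.1 + w0.2) m1 m2 m3 m4 m5 m6
      (mem_SZ n3 n6 n7) _ ?_
    intro u hu
    rw [Finset.mem_image] at hu
    obtain ⟨w, hw, rfl⟩ := hu
    obtain ⟨k1, k2, k3, k4, k5, k6⟩ := hfe w hw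
    obtain ⟨r1, r2, r3, r4, r5, r6, r7, r8, r9, r10, r11⟩ := h w k1
    refine ⟨r11, b w, r10, ?_⟩
    rw [← k2, ← k3, ← k4, ← k5, ← k6]
    obtain ⟨m, hm⟩ : ∃ m, p w = m + 1 := ⟨p w - 1, by omega⟩
    have e1 : (A w * a w) ^ p w = A w ^ (p w - 1) * w.1 := by
      rw [r7, hm, Nat.add_sub_cancel]
      ring
    rw [e1, mul_assoc, ← r8]
    ring
  have himg : (s.image g).card ≤ ((Q * Q) * ((SZ X Y).card * (SZ X Y).card)) * (SZ X Y).card := by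
    have hsub : s.image g ⊆ (((Finset.range Q) ×ˢ (Finset.range Q)) ×ˢ
        ((SZ X Y) ×ˢ (SZ X Y))) ×ˢ (SZ X Y) := by
      intro x hx
      rw [Finset.mem_image] at hx
      obtain ⟨w, hw, rfl⟩ := hx
      obtain ⟨m1, m2, m3, m4, m5, m6, -⟩ := h w hw
      obtain ⟨n1, n2, n3, n4, n5, n6, n7, -⟩ := hs w hw
      simp only [hg, Finset.mem_product, Finset.mem_range]
      exact ⟨⟨⟨m2, m4⟩, ⟨m5, m6⟩⟩, mem_SZ n3 n6 n7⟩
    refine (Finset.card_le_card hsub).trans (le_of_eq ?_)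
    simp only [Finset.card_product, Finset.card_range]
  have hWr : ((⌊W⌋₊ : ℕ) : ℝ) ≤ W := Nat.floor_le hW0
  calc (s.card : ℝ) ≤ ((⌊W⌋₊ * (((Q * Q) * ((SZ X Y).card * (SZ X Y).card)) * (SZ X Y).card) : ℕ) : ℝ) := by
        exact_mod_cast hcard.trans (Nat.mul_le_mul_left _ himg)
    _ = (Q : ℝ) ^ 2 * ((SZ X Y).card : ℝ) ^ 3 * ((⌊W⌋₊ : ℕ) : ℝ) := by push_cast; ring
    _ ≤ _ := by gcongr

end Pool.Agent.W232.FC
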