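import Pool.Agent.W232.FC.GT2

namespace Pool.Agent.W232.FC

open Classical Filter

theorem ev_const (c a : ℝ) (ha : 0 < a) : ∃ X₀ : ℕ, ∀ X : ℕ, X₀ ≤ X → c ≤ (X : ℝ) ^ a := by
  have h := (tendsto_rpow_atTop ha).comp tendsto_natCast_atTop_atTop
  exact eventually_atTop.1 (h.eventually_ge_atTop c)

theorem ev_log (a : ℝ) (ha : 0 < a) : ∃ X₀ : ℕ, ∀ X : ℕ, X₀ ≤ X →
    ((Nat.log 2 X + 1 : ℕ) : ℝ) ≤ (X : ℝ) ^ a := by
  have h1 := (isLittleO_log_rpow_atTop ha).bound (show (0 : ℝ) < 1 / 4 by norm_num)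
  have h2 := tendsto_natCast_atTop_atTop.eventually h1
  obtain ⟨X₁, hX₁⟩ := eventually_atTop.1 h2
  obtain ⟨X₂, hX₂⟩ := ev_const 2 a ha
  refine ⟨max (max X₁ X₂) 1, fun X hX => ?_⟩
  have g1 := hX₁ X (by omega)
  have g2 := hX₂ X (by omega)
  have hX1 : 1 ≤ X := by omega
  have hX0 : (0 : ℝ) < X := by exact_mod_cast hX1
  have hl0 : 0 ≤ Real.log X := Real.log_nonneg (by exact_mod_cast hX1)
  rw [Real.norm_of_nonneg hl0, Real.norm_of_nonneg (by positivity)] at g1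
  have g3 : (2 : ℝ) ^ (Nat.log 2 X) ≤ X := by
    exact_mod_cast Nat.pow_log_le_self 2 (by omega)
  have g4 := Real.log_le_log (by positivity) g3
  rw [Real.log_pow] at g4
  have hlog2 : (0.6931471803 : ℝ) < Real.log 2 := Real.log_two_gt_d9
  have hl : (0 : ℝ) ≤ (Nat.log 2 X : ℝ) := by positivity
  push_cast
  nlinarith

theorem rad_le_X {X : ℕ} {δ : ℝ} {n : ℤ} (hn : n ∈ SZ X ((X : ℝ) ^ δ)) :
    n ≠ 0 ∧ n.natAbs ≤ X ∧ (rad n.natAbs : ℝ) ≤ (X : ℝ) ^ δ := by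
  unfold SZ at hn
  rw [Finset.mem_filter, Finset.mem_Icc] at hn
  exact ⟨hn.2.1, by omega, hn.2.2⟩

theorem gt (hML : S_ML) (hAN : S_AN) (hNA : S_NA) : S_GT := by
  intro ε hε
  set Q : ℕ := ⌈8 / ε⌉₊ + 2 with hQ
  have hQ2 : 2 ≤ Q := by omega
  have hQR : 8 / ε ≤ Q := by
    rw [hQ]; push_cast
    linarith [Nat.le_ceil (8 / ε)]
  have hQinv : 1 / (Q : ℝ) ≤ ε / 8 := by
    rw [div_le_div_iff₀ (by positivity) (by norm_num)]
    rw [div_le_iff₀ hε] at hQR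
    linarith
  have hc : ∀ p q : ℕ, ∃ c : ℕ, 1 ≤ c ∧ (2 ≤ p → 2 ≤ q →
      ∀ (ρ T : ℕ) (G M : ℤ) (H : ℝ) (s : Finset ℤ), 1 ≤ ρ → 2 ≤ T → 3 ≤ H → p ∣ ρ →
      G ≠ 0 → M ≠ 0 → (∀ ℓ : ℕ, ℓ.Prime → (ℓ : ℤ) ∣ G * M → ℓ ∣ ρ) →
      (|G| : ℝ) ≤ H → (∀ u ∈ s, (|u| : ℝ) ≤ H ∧ ∃ b : ℤ, b ≠ 0 ∧ u ^ p + M * b ^ q = G) →
      (s.card : ℝ) ≤ c * (ρ : ℝ) ^ c * (c * Real.log H) ^
        (c * (T : ℝ) ^ c + c * Real.log ρ / Real.log T)) := by
    intro p q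
    by_cases h : 2 ≤ p ∧ 2 ≤ q
    · obtain ⟨c, hc1, hc⟩ := hML p q h.1 h.2
      exact ⟨c, hc1, fun _ _ => hc⟩
    · exact ⟨1, le_rfl, fun h1 h2 => absurd ⟨h1, h2⟩ h⟩
  choose c hc1 hc using hc
  set S : ℕ := ∑ p ∈ Finset.range Q, ∑ q ∈ Finset.range Q, c p q with hS
  have hcS : ∀ p q : ℕ, p < Q → q < Q → c p q ≤ S := by
    intro p q hp hq
    rw [hS]
    calc c p q ≤ ∑ q ∈ Finset.range Q, c p q :=
          Finset.single_le_sum (f := fun q => c p q) (fun _ _ => Nat.zero_le _)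
            (Finset.mem_range.2 hq)
      _ ≤ _ := Finset.single_le_sum (f := fun p => ∑ q ∈ Finset.range Q, c p q)
            (fun _ _ => Nat.zero_le _) (Finset.mem_range.2 hp)
  set C : ℕ := Q * (S + 1) with hC
  have hC1 : 1 ≤ C := Nat.mul_pos (by omega) (by omega)
  have hcC : ∀ p q : ℕ, p < Q → q < Q → c p q ≤ C ∧ c p q * Q ≤ C := by
    intro p q hp hq
    have h1 := hcS p q hp hq
    constructor
    · rw [hC]; nlinarith
    · rw [hC]; nlinarith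
  obtain ⟨κ, hκ, hAN⟩ := hAN C hC1
  have hC1R : (1 : ℝ) ≤ C := by exact_mod_cast hC1
  set δ : ℝ := ε / (8 * (12 + 4 * C + 4 * κ)) with hδ
  have hδ0 : 0 < δ := by positivity
  have hδ1 : (12 + 4 * C + 4 * κ) * δ = ε / 8 := by
    rw [hδ]; field_simp
  have hδ2 : 8 * δ ≤ ε / 8 := by
    rw [← hδ1]
    have : (8 : ℝ) ≤ 12 + 4 * C + 4 * κ := by linarith
    exact mul_le_mul_of_nonneg_right this hδ0.le
  refine ⟨δ, hδ0, ?_⟩
  obtain ⟨X₁, hX₁⟩ := hAN (4 * δ) (by positivity)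
  obtain ⟨X₂, hX₂⟩ := hNA δ hδ0
  obtain ⟨X₃, hX₃⟩ := ev_const Q δ hδ0
  obtain ⟨X₄, hX₄⟩ := ev_const (24 + 8 * (Q : ℝ) ^ 2 * C) (ε / 8) (by positivity)
  obtain ⟨X₅, hX₅⟩ := ev_log (ε / 8) (by positivity)
  refine ⟨X₁ + X₂ + X₃ + X₄ + X₅ + 3, fun X hX s hs => ?_⟩
  have hX3 : 3 ≤ X := by omega
  obtain ⟨T, hT2, hT⟩ := hX₁ X (by omega)
  have hna := hX₂ X (by omega)
  have hXQ := hX₃ X (by omega)
  have hXC := hX₄ X (by omega)
  have hXL := hX₅ X (by omega)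
  have hXR : (3 : ℝ) ≤ X := by exact_mod_cast hX3
  have hX1R : (1 : ℝ) ≤ X := by linarith
  have hX0R : (0 : ℝ) < X := by linarith
  have hSZ : ((SZ X ((X : ℝ) ^ δ)).card : ℝ) ≤ 2 * (X : ℝ) ^ (4 * δ) := card_SZ hna
  have hlogX : 1 ≤ Real.log X := by
    rw [Real.le_log_iff_exp_le (by linarith)]
    have := Real.exp_one_lt_d9
    linarith
  -- K
  set K : ℕ := ⌊(X : ℝ) ^ (1 / (Q : ℝ))⌋₊ with hK
  have hKle : ∀ n : ℕ, n ^ Q ≤ X → n ≤ K := by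
    intro n hn
    refine Nat.le_floor ?_
    have h1 : ((n : ℝ) ^ Q) ^ (1 / (Q : ℝ)) ≤ (X : ℝ) ^ (1 / (Q : ℝ)) := by
      refine Real.rpow_le_rpow (by positivity) (by exact_mod_cast hn) (by positivity)
    rwa [← Real.rpow_natCast, ← Real.rpow_mul (by positivity), mul_one_div_cancel (by positivity),
      Real.rpow_one] at h1
  have hKR : ((2 * K + 1 : ℕ) : ℝ) ≤ 3 * (X : ℝ) ^ (ε / 8) := by
    have h1 : (K : ℝ) ≤ (X : ℝ) ^ (1 / (Q : ℝ)) := Nat.floor_le (by positivity)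
    have h2 : (X : ℝ) ^ (1 / (Q : ℝ)) ≤ (X : ℝ) ^ (ε / 8) :=
      Real.rpow_le_rpow_of_exponent_le hX1R hQinv
    have h3 : 1 ≤ (X : ℝ) ^ (ε / 8) := Real.one_le_rpow hX1R (by positivity)
    push_cast
    linarith
  -- the trivial parts
  have htriv : ∀ s' : Finset (ℤ × ℤ), (∀ w ∈ s', w.1 ≠ 0 ∧ w.1 + w.2 ≠ 0 ∧ w.1.natAbs ≤ X ∧
      (w.1 + w.2).natAbs ≤ X ∧ (rad (w.1 + w.2).natAbs : ℝ) ≤ (X : ℝ) ^ δ ∧
      ∃ (p : ℕ) (A a : ℤ), Q ≤ p ∧ w.1 = A * a ^ p ∧ (rad A.natAbs : ℝ) ≤ (X : ℝ) ^ δ) →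
      (s'.card : ℝ) ≤ 12 * (X : ℝ) ^ (ε / 2) := by
    intro s' hs'
    have h1 := trivial_part X Q K ((X : ℝ) ^ δ) (by omega) (by omega) hKle s' hs'
    calc (s'.card : ℝ) ≤ (((SZ X ((X : ℝ) ^ δ)).card ^ 2 *
            ((2 * K + 1) * (Nat.log 2 X + 1)) : ℕ) : ℝ) := by exact_mod_cast h1
      _ = ((SZ X ((X : ℝ) ^ δ)).card : ℝ) ^ 2 *
            (((2 * K + 1 : ℕ) : ℝ) * ((Nat.log 2 X + 1 : ℕ) : ℝ)) := by push_cast; ring
      _ ≤ (2 * (X : ℝ) ^ (4 * δ)) ^ 2 * ((3 * (X : ℝ) ^ (ε / 8)) * (X : ℝ) ^ (ε / 8)) := by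
          gcongr
      _ = 12 * ((X : ℝ) ^ (4 * δ) * (X : ℝ) ^ (4 * δ) * (X : ℝ) ^ (ε / 8) *
            (X : ℝ) ^ (ε / 8)) := by ring
      _ = 12 * (X : ℝ) ^ (4 * δ + 4 * δ + ε / 8 + ε / 8) := by
          rw [Real.rpow_add hX0R, Real.rpow_add hX0R, Real.rpow_add hX0R]
      _ ≤ 12 * (X : ℝ) ^ (ε / 2) := by
          have : (X : ℝ) ^ (4 * δ + 4 * δ + ε / 8 + ε / 8) ≤ (X : ℝ) ^ (ε / 2) :=
            Real.rpow_le_rpow_of_exponent_le hX1R (by linarith)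
          linarith
  -- the main part
  have hmain : ∀ s' : Finset (ℤ × ℤ), (∀ w ∈ s', w.1 ≠ 0 ∧ w.2 ≠ 0 ∧ w.1 + w.2 ≠ 0 ∧
      w.1.natAbs ≤ X ∧ w.2.natAbs ≤ X ∧ (w.1 + w.2).natAbs ≤ X ∧
      (rad (w.1 + w.2).natAbs : ℝ) ≤ (X : ℝ) ^ δ ∧
      (∃ (p : ℕ) (A a : ℤ), 2 ≤ p ∧ p < Q ∧ w.1 = A * a ^ p ∧
        (rad A.natAbs : ℝ) ≤ (X : ℝ) ^ δ) ∧
      ∃ (q : ℕ) (B b : ℤ), 2 ≤ q ∧ q < Q ∧ w.2 = B * b ^ q ∧
        (rad B.natAbs : ℝ) ≤ (X : ℝ) ^ δ) →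
      (s'.card : ℝ) ≤ 8 * (Q : ℝ) ^ 2 * C * (X : ℝ) ^ (ε / 2) := by
    intro s' hs'
    have hW := main_part X Q ((X : ℝ) ^ δ) (C * (X : ℝ) ^ (4 * δ * C) * (X : ℝ) ^ (κ * (4 * δ)))
      (by positivity) ?_ s' hs'
    · refine hW.trans ?_
      calc (Q : ℝ) ^ 2 * ((SZ X ((X : ℝ) ^ δ)).card : ℝ) ^ 3 *
            (C * (X : ℝ) ^ (4 * δ * C) * (X : ℝ) ^ (κ * (4 * δ)))
          ≤ (Q : ℝ) ^ 2 * (2 * (X : ℝ) ^ (4 * δ)) ^ 3 *
            (C * (X : ℝ) ^ (4 * δ * C) * (X : ℝ) ^ (κ * (4 * δ))) := by gcongr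
        _ = 8 * (Q : ℝ) ^ 2 * C * ((X : ℝ) ^ (4 * δ) * (X : ℝ) ^ (4 * δ) * (X : ℝ) ^ (4 * δ) *
              (X : ℝ) ^ (4 * δ * C) * (X : ℝ) ^ (κ * (4 * δ))) := by ring
        _ = 8 * (Q : ℝ) ^ 2 * C *
              (X : ℝ) ^ (4 * δ + 4 * δ + 4 * δ + 4 * δ * C + κ * (4 * δ)) := by
            rw [Real.rpow_add hX0R, Real.rpow_add hX0R, Real.rpow_add hX0R, Real.rpow_add hX0R]
        _ ≤ _ := by
            have : (X : ℝ) ^ (4 * δ + 4 * δ + 4 * δ + 4 * δ * C + κ * (4 * δ)) ≤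
                (X : ℝ) ^ (ε / 2) :=
              Real.rpow_le_rpow_of_exponent_le hX1R (by nlinarith)
            gcongr
    · intro p q A B z hp hpQ hq hqQ hA hB hz F hF
      obtain ⟨hA0, hAX, hAr⟩ := rad_le_X hA
      obtain ⟨hB0, hBX, hBr⟩ := rad_le_X hB
      obtain ⟨hz0, hzX, hzr⟩ := rad_le_X hz
      set ρ : ℕ := p * (rad A.natAbs * (rad B.natAbs * rad z.natAbs)) with hρ
      have hρ1 : 1 ≤ ρ := Nat.mul_pos (by omega) (Nat.mul_pos (rad_pos _)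
        (Nat.mul_pos (rad_pos _) (rad_pos _)))
      set H : ℝ := (X : ℝ) ^ Q with hH
      have hXH : (X : ℝ) ≤ H := le_self_pow₀ hX1R (by omega)
      have hH3 : 3 ≤ H := hXR.trans hXH
      have hcc := hcC p q hpQ hqQ
      have hc1' := hc1 p q
      have hρR : (ρ : ℝ) ≤ (X : ℝ) ^ (4 * δ) := by
        have h1 : (p : ℝ) ≤ (X : ℝ) ^ δ := by
          refine le_trans ?_ hXQ
          exact_mod_cast hpQ.le
        calc (ρ : ℝ) = p * (rad A.natAbs * (rad B.natAbs * rad z.natAbs)) := by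
              rw [hρ]; push_cast; ring
          _ ≤ (X : ℝ) ^ δ * ((X : ℝ) ^ δ * ((X : ℝ) ^ δ * (X : ℝ) ^ δ)) := by gcongr
          _ = (X : ℝ) ^ (4 * δ) := by
              rw [← Real.rpow_add hX0R, ← Real.rpow_add hX0R, ← Real.rpow_add hX0R]
              congr 1; ring
      have hρ1R : (1 : ℝ) ≤ ρ := by exact_mod_cast hρ1
      have hlogρ : Real.log ρ ≤ 4 * δ * Real.log X := by
        rw [← Real.log_rpow hX0R]
        exact Real.log_le_log (by linarith) hρR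
      have hlogρ0 : 0 ≤ Real.log ρ := Real.log_nonneg hρ1R
      have hlogH : Real.log H = Q * Real.log X := by rw [hH, Real.log_pow]
      have hAp : A ^ (p - 1) ≠ 0 := pow_ne_zero _ hA0
      have hb := hc p q hp hq ρ T (A ^ (p - 1) * z) (A ^ (p - 1) * B) H F hρ1 hT2 hH3
        (dvd_mul_right _ _) (mul_ne_zero hAp hz0) (mul_ne_zero hAp hB0) ?_ ?_ ?_
      · refine hb.trans ?_
        have hcR : (c p q : ℝ) ≤ C := by exact_mod_cast hcc.1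
        have hc1R : (1 : ℝ) ≤ c p q := by exact_mod_cast hc1'
        have hcQR : (c p q : ℝ) * Q ≤ C := by exact_mod_cast hcc.2
        have hTR : (1 : ℝ) ≤ T := by exact_mod_cast (by omega : 1 ≤ T)
        have hlogT : 0 < Real.log T := Real.log_pos (by exact_mod_cast (by omega : 1 < T))
        have g1 : (ρ : ℝ) ^ (c p q) ≤ (X : ℝ) ^ (4 * δ * C) := by
          calc (ρ : ℝ) ^ (c p q) ≤ (ρ : ℝ) ^ C := pow_le_pow_right₀ hρ1R hcc.1
            _ ≤ ((X : ℝ) ^ (4 * δ)) ^ C := by gcongr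
            _ = (X : ℝ) ^ (4 * δ * C) := by
                rw [Real.rpow_mul (by linarith : (0 : ℝ) ≤ X) (4 * δ) (C : ℝ), Real.rpow_natCast]
        have g2 : (c p q : ℝ) * Real.log H ≤ C * Real.log X := by
          rw [hlogH, ← mul_assoc]
          gcongr
        have g3 : 1 ≤ (C : ℝ) * Real.log X := by nlinarith
        have g4 : (c p q : ℝ) * (T : ℝ) ^ (c p q) + (c p q : ℝ) * Real.log ρ / Real.log T ≤
            C * (T : ℝ) ^ C + C * (4 * δ * Real.log X) / Real.log T := by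
          have : (T : ℝ) ^ (c p q) ≤ (T : ℝ) ^ C := pow_le_pow_right₀ hTR hcc.1
          gcongr
        have g5 : 0 ≤ (c p q : ℝ) * (T : ℝ) ^ (c p q) +
            (c p q : ℝ) * Real.log ρ / Real.log T := by positivity
        have g6 : 0 ≤ (c p q : ℝ) * Real.log H := by
          rw [hlogH]; positivity
        have g7 : ((c p q : ℝ) * Real.log H) ^ ((c p q : ℝ) * (T : ℝ) ^ (c p q) +
            (c p q : ℝ) * Real.log ρ / Real.log T) ≤ (X : ℝ) ^ (κ * (4 * δ)) := by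
          calc _ ≤ (C * Real.log X) ^ ((c p q : ℝ) * (T : ℝ) ^ (c p q) +
                (c p q : ℝ) * Real.log ρ / Real.log T) := Real.rpow_le_rpow g6 g2 g5
            _ ≤ (C * Real.log X) ^ (C * (T : ℝ) ^ C + C * (4 * δ * Real.log X) / Real.log T) :=
                Real.rpow_le_rpow_of_exponent_le g3 g4
            _ ≤ _ := hT
        exact mul_le_mul (mul_le_mul hcR g1 (by positivity) (by positivity)) g7 (by positivity)
          (by positivity)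
      · intro ℓ hℓ hd
        have hℓ' : Prime (ℓ : ℤ) := Nat.prime_iff_prime_int.1 hℓ
        have hdA : (ℓ : ℤ) ∣ A ^ (p - 1) → ℓ ∣ ρ := by
          intro h
          have h1 : (ℓ : ℤ) ∣ A := hℓ'.dvd_of_dvd_pow h
          have h2 : ℓ ∣ rad A.natAbs := dvd_rad (Int.natAbs_ne_zero.2 hA0) hℓ
            (Int.natCast_dvd.1 h1)
          rw [hρ]
          exact (h2.mul_right _).mul_left _
        rcases hℓ'.dvd_or_dvd hd with h | h
        · rcases hℓ'.dvd_or_dvd h with h | h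
          · exact hdA h
          · have h2 : ℓ ∣ rad z.natAbs := dvd_rad (Int.natAbs_ne_zero.2 hz0) hℓ
              (Int.natCast_dvd.1 h)
            rw [hρ]
            exact ((h2.mul_left _).mul_left _).mul_left _
        · rcases hℓ'.dvd_or_dvd h with h | h
          · exact hdA h
          · have h2 : ℓ ∣ rad B.natAbs := dvd_rad (Int.natAbs_ne_zero.2 hB0) hℓ
              (Int.natCast_dvd.1 h)
            rw [hρ]
            exact ((h2.mul_right _).mul_left _).mul_left _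
      · have h1 : |((A ^ (p - 1) * z : ℤ) : ℝ)| = (A.natAbs : ℝ) ^ (p - 1) * (z.natAbs : ℝ) := by
          push_cast
          rw [abs_mul, abs_pow, Nat.cast_natAbs, Nat.cast_natAbs]
          push_cast
          rfl
        rw [h1, hH]
        calc (A.natAbs : ℝ) ^ (p - 1) * (z.natAbs : ℝ) ≤ (X : ℝ) ^ (p - 1) * X := by
              have a1 : (A.natAbs : ℝ) ≤ X := by exact_mod_cast hAX
              have a2 : (z.natAbs : ℝ) ≤ X := by exact_mod_cast hzX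
              gcongr
          _ = (X : ℝ) ^ p := by
              rw [← pow_succ]; congr 1; omega
          _ ≤ (X : ℝ) ^ Q := pow_le_pow_right₀ hX1R hpQ.le
      · intro u hu
        obtain ⟨h1, b, hb1, hb2⟩ := hF u hu
        refine ⟨?_, b, hb1, ?_⟩
        · refine le_trans ?_ hXH
          have : |(u : ℝ)| = (u.natAbs : ℝ) := by
            rw [Nat.cast_natAbs]; push_cast; rfl
          rw [this]
          exact_mod_cast h1
        · exact hb2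
  -- splitting
  set s1 := s.filter (fun w => ∃ (p : ℕ) (A a : ℤ), Q ≤ p ∧ w.1 = A * a ^ p ∧
    (rad A.natAbs : ℝ) ≤ (X : ℝ) ^ δ) with hs1
  set s2 := s.filter (fun w => ∃ (p : ℕ) (A a : ℤ), Q ≤ p ∧ w.2 = A * a ^ p ∧
    (rad A.natAbs : ℝ) ≤ (X : ℝ) ^ δ) with hs2
  set s3 := s.filter (fun w => (∃ (p : ℕ) (A a : ℤ), 2 ≤ p ∧ p < Q ∧ w.1 = A * a ^ p ∧
    (rad A.natAbs : ℝ) ≤ (X : ℝ) ^ δ) ∧ ∃ (q : ℕ) (B b : ℤ), 2 ≤ q ∧ q < Q ∧ w.2 = B * b ^ q ∧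
        (rad B.natAbs : ℝ) ≤ (X : ℝ) ^ δ) with hs3
  have hunion : s ⊆ (s1 ∪ s2) ∪ s3 := by
    intro w hw
    obtain ⟨e1, e2, e3, e4, e5, e6, e7, ⟨p, A, a, p1, p2, p3⟩, ⟨q, B, b, q1, q2, q3⟩⟩ := hs w hw
    rw [Finset.mem_union, Finset.mem_union]
    by_cases hpQ : Q ≤ p
    · left; left
      exact Finset.mem_filter.2 ⟨hw, p, A, a, hpQ, p2, p3⟩
    · by_cases hqQ : Q ≤ q
      · left; right
        exact Finset.mem_filter.2 ⟨hw, q, B, b, hqQ, q2, q3⟩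
      · right
        exact Finset.mem_filter.2 ⟨hw, ⟨p, A, a, p1, by omega, p2, p3⟩,
          ⟨q, B, b, q1, by omega, q2, q3⟩⟩
  have b1 : (s1.card : ℝ) ≤ 12 * (X : ℝ) ^ (ε / 2) := by
    refine htriv s1 ?_
    intro w hw
    rw [Finset.mem_filter] at hw
    obtain ⟨e1, e2, e3, e4, e5, e6, e7, -⟩ := hs w hw.1
    exact ⟨e1, e3, e4, e6, e7, hw.2⟩
  have b2 : (s2.card : ℝ) ≤ 12 * (X : ℝ) ^ (ε / 2) := by
    have h1 : s2.card = (s2.image Prod.swap).card :=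
      (Finset.card_image_of_injective _ Prod.swap_injective).symm
    rw [h1]
    refine htriv _ ?_
    intro w hw
    rw [Finset.mem_image] at hw
    obtain ⟨v, hv, rfl⟩ := hw
    rw [Finset.mem_filter] at hv
    obtain ⟨e1, e2, e3, e4, e5, e6, e7, -⟩ := hs v hv.1
    rw [add_comm] at e3 e6 e7
    exact ⟨e2, e3, e5, e6, e7, hv.2⟩
  have b3 : (s3.card : ℝ) ≤ 8 * (Q : ℝ) ^ 2 * C * (X : ℝ) ^ (ε / 2) := by
    refine hmain s3 ?_
    intro w hw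
    rw [Finset.mem_filter] at hw
    obtain ⟨e1, e2, e3, e4, e5, e6, e7, -⟩ := hs w hw.1
    exact ⟨e1, e2, e3, e4, e5, e6, e7, hw.2.1, hw.2.2⟩
  have hcard : s.card ≤ s1.card + s2.card + s3.card :=
    (Finset.card_le_card hunion).trans ((Finset.card_union_le _ _).trans
      (Nat.add_le_add_right (Finset.card_union_le _ _) _))
  calc (s.card : ℝ) ≤ (s1.card : ℝ) + s2.card + s3.card := by exact_mod_cast hcard
    _ ≤ (24 + 8 * (Q : ℝ) ^ 2 * C) * (X : ℝ) ^ (ε / 2) := by linarith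
    _ ≤ (X : ℝ) ^ (ε / 8) * (X : ℝ) ^ (ε / 2) := by gcongr
    _ = (X : ℝ) ^ (ε / 8 + ε / 2) := (Real.rpow_add hX0R _ _).symm
    _ ≤ (X : ℝ) ^ ε := Real.rpow_le_rpow_of_exponent_le hX1R (by linarith)

end Pool.Agent.W232.FC
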