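import Pool.Agent.W232.FC.Fibre

namespace Pool.Agent.W232.FC

open NumberField Classical Polynomial

theorem nb_bound (p q ρ D : ℕ) (hp : 2 ≤ p) (hq : 2 ≤ q) (hρ : 1 ≤ ρ) (hD : D ≤ p ^ 2) :
    (q : ℝ) ^ ⌊(2 : ℝ) ^ (D + 1) + D * Real.log ρ / Real.log 2⌋₊ *
      (((D : ℝ) * ρ) ^ D) ^ (D + 1) * ((q : ℝ) ^ D * 6 ^ (2 * D)) ≤
    ((q ^ (2 ^ (p ^ 2 + 1)) * (p ^ 2) ^ (p ^ 2 * (p ^ 2 + 1)) * q ^ (p ^ 2) * 36 ^ (p ^ 2) : ℕ) : ℝ) *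
      (ρ : ℝ) ^ (p ^ 2 * q + p ^ 2 * (p ^ 2 + 1)) := by
  have hρR : (1 : ℝ) ≤ ρ := by exact_mod_cast hρ
  have hqR : (1 : ℝ) ≤ q := by exact_mod_cast (by omega : 1 ≤ q)
  have hq0 : (0 : ℝ) < q := by linarith
  have hρ0 : (0 : ℝ) < ρ := by linarith
  have hlogρ : 0 ≤ Real.log ρ := Real.log_nonneg hρR
  have hlog2 : 0 < Real.log 2 := Real.log_pos (by norm_num)
  have hDR : (D : ℝ) ≤ ((p ^ 2 : ℕ) : ℝ) := by exact_mod_cast hD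
  have hx0 : 0 ≤ (2 : ℝ) ^ (D + 1) + D * Real.log ρ / Real.log 2 := by positivity
  have h1 : (q : ℝ) ^ ⌊(2 : ℝ) ^ (D + 1) + D * Real.log ρ / Real.log 2⌋₊ ≤
      (q : ℝ) ^ (2 ^ (p ^ 2 + 1)) * (ρ : ℝ) ^ (p ^ 2 * q) := by
    rw [← Real.rpow_natCast]
    calc (q : ℝ) ^ ((⌊(2 : ℝ) ^ (D + 1) + D * Real.log ρ / Real.log 2⌋₊ : ℕ) : ℝ)
        ≤ (q : ℝ) ^ ((2 : ℝ) ^ (p ^ 2 + 1) + ((p ^ 2 : ℕ) : ℝ) * Real.log ρ / Real.log 2) := by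
          refine Real.rpow_le_rpow_of_exponent_le hqR ((Nat.floor_le hx0).trans ?_)
          have : (2 : ℝ) ^ (D + 1) ≤ (2 : ℝ) ^ (p ^ 2 + 1) :=
            pow_le_pow_right₀ (by norm_num) (by omega)
          gcongr
      _ = (q : ℝ) ^ ((2 : ℝ) ^ (p ^ 2 + 1)) *
            (q : ℝ) ^ (((p ^ 2 : ℕ) : ℝ) * Real.log ρ / Real.log 2) := Real.rpow_add hq0 _ _
      _ ≤ _ := by
          have e1 : (q : ℝ) ^ ((2 : ℝ) ^ (p ^ 2 + 1)) = (q : ℝ) ^ (2 ^ (p ^ 2 + 1)) := by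
            have e0 : ((2 ^ (p ^ 2 + 1) : ℕ) : ℝ) = (2 : ℝ) ^ (p ^ 2 + 1) := by push_cast; rfl
            rw [← e0, Real.rpow_natCast]
          rw [e1]
          refine mul_le_mul_of_nonneg_left ?_ (by positivity)
          rw [← Real.rpow_natCast, Real.rpow_def_of_pos hq0, Real.rpow_def_of_pos hρ0]
          apply Real.exp_le_exp.2
          have h3 : Real.log q ≤ q * Real.log 2 := by
            rw [← Real.log_pow]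
            apply Real.log_le_log hq0
            have : q < 2 ^ q := Nat.lt_two_pow_self
            exact_mod_cast this.le
          have h4 : Real.log q / Real.log 2 ≤ q := by
            rw [div_le_iff₀ hlog2]; exact h3
          calc Real.log q * (((p ^ 2 : ℕ) : ℝ) * Real.log ρ / Real.log 2)
              = (Real.log q / Real.log 2) * (((p ^ 2 : ℕ) : ℝ) * Real.log ρ) := by ring
            _ ≤ q * (((p ^ 2 : ℕ) : ℝ) * Real.log ρ) := by gcongr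
            _ = _ := by push_cast; ring
  have h2 : (((D : ℝ) * ρ) ^ D) ^ (D + 1) ≤
      ((p ^ 2 : ℕ) : ℝ) ^ (p ^ 2 * (p ^ 2 + 1)) * (ρ : ℝ) ^ (p ^ 2 * (p ^ 2 + 1)) := by
    rw [← pow_mul, ← mul_pow]
    have hb : (1 : ℝ) ≤ ((p ^ 2 : ℕ) : ℝ) * ρ := by
      have : (1 : ℝ) ≤ ((p ^ 2 : ℕ) : ℝ) := by
        exact_mod_cast Nat.one_le_pow _ _ (by omega)
      nlinarith
    calc ((D : ℝ) * ρ) ^ (D * (D + 1)) ≤ (((p ^ 2 : ℕ) : ℝ) * ρ) ^ (D * (D + 1)) := by gcongr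
      _ ≤ _ := pow_le_pow_right₀ hb (by gcongr)
  have h3 : (q : ℝ) ^ D * 6 ^ (2 * D) ≤ (q : ℝ) ^ (p ^ 2) * 36 ^ (p ^ 2) := by
    rw [pow_mul]
    have a1 : (q : ℝ) ^ D ≤ (q : ℝ) ^ (p ^ 2) := pow_le_pow_right₀ hqR hD
    have a2 : ((6 : ℝ) ^ 2) ^ D ≤ 36 ^ (p ^ 2) := by
      norm_num
      exact pow_le_pow_right₀ (by norm_num) hD
    exact mul_le_mul a1 a2 (by positivity) (by positivity)
  calc _ ≤ ((q : ℝ) ^ (2 ^ (p ^ 2 + 1)) * (ρ : ℝ) ^ (p ^ 2 * q)) *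
        (((p ^ 2 : ℕ) : ℝ) ^ (p ^ 2 * (p ^ 2 + 1)) * (ρ : ℝ) ^ (p ^ 2 * (p ^ 2 + 1))) *
        ((q : ℝ) ^ (p ^ 2) * 36 ^ (p ^ 2)) := by
        gcongr
    _ = _ := by push_cast; ring

theorem fb_bound (p q ρ T C : ℕ) (H : ℝ) (hp : 2 ≤ p) (hq : 2 ≤ q) (hρ : 1 ≤ ρ) (hT : 2 ≤ T)
    (hH : 3 ≤ H) (hC : 980 * (p * q) ^ 5 + 2 ≤ C) :
    Fb p q ρ T H ^ 2 ≤ (C * Real.log H) ^
      (C * (T : ℝ) ^ C + C * Real.log ρ / Real.log T) := by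
  set E : ℕ := (p * q) ^ 5 with hE
  have hE1 : 1 ≤ E := Nat.one_le_pow _ _ (by positivity)
  have hE1R : (1 : ℝ) ≤ E := by exact_mod_cast hE1
  have hL := logH_ge hH
  have hlogρ : 0 ≤ Real.log ρ := Real.log_nonneg (by exact_mod_cast hρ)
  have hlogT : 0 < Real.log T := Real.log_pos (by exact_mod_cast (by omega : 1 < T))
  have hTR : (1 : ℝ) ≤ T := by exact_mod_cast (by omega : 1 ≤ T)
  have hCR : (980 : ℝ) * E + 2 ≤ C := by exact_mod_cast hC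
  set Bs : ℝ := C * Real.log H with hBs
  have hBs1 : 1 ≤ Bs := by
    rw [hBs]
    nlinarith
  have hBs2 : 4 * (E : ℝ) * Real.log H ≤ Bs := by
    rw [hBs]
    have : 4 * (E : ℝ) ≤ C := by nlinarith
    nlinarith
  have hBs3 : 5 * (E : ℝ) * Real.log H * 196 ≤ Bs := by
    rw [hBs]
    have : 980 * (E : ℝ) ≤ C := by nlinarith
    nlinarith
  set e1 : ℝ := (T : ℝ) ^ (E + 1) + E * Real.log ρ / Real.log T with he1
  have he1' : 0 ≤ e1 := by positivity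
  have hF : Fb p q ρ T H ≤ Bs ^ (e1 + E) := by
    unfold Fb
    rw [← hE, ← he1, Real.rpow_add (by linarith : (0 : ℝ) < Bs) e1 E, Real.rpow_natCast, mul_assoc]
    have a1 : (4 * (E : ℝ) * Real.log H) ^ e1 ≤ Bs ^ e1 :=
      Real.rpow_le_rpow (by positivity) hBs2 he1'
    have a2 : (5 * (E : ℝ) * Real.log H) ^ E * 14 ^ (2 * E) ≤ Bs ^ E := by
      rw [pow_mul, show ((14 : ℝ) ^ 2) = 196 by norm_num, ← mul_pow]
      exact pow_le_pow_left₀ (by positivity) hBs3 _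
    exact mul_le_mul a1 a2 (by positivity) (by positivity)
  have hF0 : 0 ≤ Fb p q ρ T H := zero_le_one.trans (one_le_Fb p q ρ T H hp hq hρ hT hH)
  calc Fb p q ρ T H ^ 2 ≤ (Bs ^ (e1 + E)) ^ 2 := by gcongr
    _ = Bs ^ ((e1 + E) * (2 : ℕ)) := by
        rw [Real.rpow_mul (by linarith), Real.rpow_natCast]
    _ ≤ Bs ^ (C * (T : ℝ) ^ C + C * Real.log ρ / Real.log T) := by
        refine Real.rpow_le_rpow_of_exponent_le hBs1 ?_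
        rw [he1]
        have b1 : (T : ℝ) ^ (E + 1) ≤ (T : ℝ) ^ C := pow_le_pow_right₀ hTR (by omega)
        have b2 : (1 : ℝ) ≤ (T : ℝ) ^ C := one_le_pow₀ hTR
        have b3 : 2 * (E : ℝ) + 2 ≤ C := by nlinarith
        have b4 : 2 * ((E : ℝ) * Real.log ρ / Real.log T) ≤ C * Real.log ρ / Real.log T := by
          rw [← mul_div_assoc, ← mul_assoc]
          have : 2 * (E : ℝ) ≤ C := by linarith
          gcongr
        push_cast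
        nlinarith

theorem ml_core (hSEL : S_SEL) (hPRM : S_PRM) (hVAL : S_VAL)
    (K : Type) [Field K] [NumberField K] (ι : K →+* ℂ) (ζo γo : 𝓞 K) (p q ρ : ℕ) (G M : ℤ)
    (H V : ℝ) (s : Finset ℤ) (hp : 2 ≤ p) (hq : 2 ≤ q) (hρ : 1 ≤ ρ)
    (hpρ : p ∣ ρ) (hG : G ≠ 0) (hM : M ≠ 0) (hGM : ∀ ℓ : ℕ, ℓ.Prime → (ℓ : ℤ) ∣ G * M → ℓ ∣ ρ)
    (hs : ∀ u ∈ s, (|u| : ℝ) ≤ H ∧ ∃ b : ℤ, b ≠ 0 ∧ u ^ p + M * b ^ q = G)
    (hζo' : IsPrimitiveRoot ζo p) (hγo' : γo ^ p = (G : 𝓞 K))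
    (hfr : Module.finrank ℚ K ≤ p ^ 2)
    (hw : ∃ w : Fin (Module.finrank ℚ K) → 𝓞 K, LinearIndependent ℚ (fun i => (w i : K)) ∧
      ∀ i, ∀ σ : K →+* ℂ, ‖σ (w i : K)‖ ≤ (ρ : ℝ))
    (hV : 0 ≤ V)
    (hfib : ∀ (a b : ℤ) (F : Finset ℤ), (∀ u ∈ F, (|u| : ℝ) ≤ H ∧
      (∃ z : K, (u : ℂ) - ι γo = ((a : ℂ) - ι γo) * (ι z) ^ q) ∧
      (∃ z : K, (u : ℂ) - ι ζo * ι γo = ((b : ℂ) - ι ζo * ι γo) * (ι z) ^ q)) →
      (F.card : ℝ) ≤ V) :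
    (s.card : ℝ) ≤ ((q ^ (2 ^ (p ^ 2 + 1)) * (p ^ 2) ^ (p ^ 2 * (p ^ 2 + 1)) * q ^ (p ^ 2) *
      36 ^ (p ^ 2) : ℕ) : ℝ) ^ 2 * (ρ : ℝ) ^ (2 * (p ^ 2 * q + p ^ 2 * (p ^ 2 + 1))) * V := by
  have hp0 : 0 < p := by omega
  have hq0 : 0 < q := by omega
  have hGρ : ∀ ℓ : ℕ, ℓ.Prime → (ℓ : ℤ) ∣ G → ℓ ∣ ρ := fun ℓ hℓ hd => hGM ℓ hℓ (hd.mul_right _)
  have hMρ : ∀ ℓ : ℕ, ℓ.Prime → (ℓ : ℤ) ∣ M → ℓ ∣ ρ := fun ℓ hℓ hd => hGM ℓ hℓ (hd.mul_left _)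
  set k : ℕ := ⌊(2 : ℝ) ^ (Module.finrank ℚ K + 1) + Module.finrank ℚ K * Real.log ρ /
    Real.log 2⌋₊ with hk
  have hkP : ∀ P : Finset (Ideal (𝓞 K)), (∀ 𝔓 ∈ P, 𝔓.IsPrime ∧ 𝔓 ≠ ⊥ ∧ (ρ : 𝓞 K) ∈ 𝔓) →
      P.card ≤ k := by
    intro P hP
    refine Nat.le_floor ?_
    have := hPRM K ρ 2 hρ le_rfl P hP
    simpa using this
  have hρR : (1 : ℝ) ≤ ρ := by exact_mod_cast hρ
  have hclass := hSEL K q ρ k ρ (by omega) hρR hkP hw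
  have hNbK := nb_bound p q ρ (Module.finrank ℚ K) hp hq hρ hfr
  rw [← hk] at hNbK
  have hNb0 : 0 ≤ (q : ℝ) ^ k * (((Module.finrank ℚ K : ℝ) * ρ) ^ (Module.finrank ℚ K)) ^
      (Module.finrank ℚ K + 1) * ((q : ℝ) ^ (Module.finrank ℚ K) *
        6 ^ (2 * Module.finrank ℚ K)) := by positivity
  generalize (q : ℝ) ^ k * (((Module.finrank ℚ K : ℝ) * ρ) ^ (Module.finrank ℚ K)) ^
      (Module.finrank ℚ K + 1) * ((q : ℝ) ^ (Module.finrank ℚ K) *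
        6 ^ (2 * Module.finrank ℚ K)) = Nb at hclass hNbK hNb0
  have hclass' : ∀ t : Finset (𝓞 K), (∀ x ∈ t, x ≠ 0 ∧ Val K q ρ x) →
      (∀ x ∈ t, ∀ y ∈ t, x ≠ y → ¬ ∃ z : K, (x : K) = (y : K) * z ^ q) → t.card ≤ ⌊Nb⌋₊ := by
    intro t h1 h2
    exact Nat.le_floor (hclass t h1 h2)
  -- the elements
  have hval : ∀ u ∈ s, ∀ j : ℕ, ((u : 𝓞 K) - ζo ^ j * γo ≠ 0 ∧
      Val K q ρ ((u : 𝓞 K) - ζo ^ j * γo)) := by
    intro u hu j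
    obtain ⟨-, b, hb, hub⟩ := hs u hu
    have hid : (u : 𝓞 K) ^ p + (M : 𝓞 K) * (b : 𝓞 K) ^ q = γo ^ p := by
      rw [hγo', ← hub]; push_cast; rfl
    refine ⟨?_, ?_⟩
    · intro h0
      have h1 : (u : 𝓞 K) ^ p = γo ^ p := by
        rw [sub_eq_zero.1 h0, mul_pow, ← pow_mul, mul_comm j p, pow_mul, hζo'.pow_eq_one, one_pow,
          one_mul]
      have h2 : (M : 𝓞 K) * (b : 𝓞 K) ^ q = 0 := by
        rw [h1] at hid
        exact add_eq_left.1 hid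
      rcases mul_eq_zero.1 h2 with h3 | h3
      · exact hM (Int.cast_eq_zero.1 h3)
      · exact hb (Int.cast_eq_zero.1 (pow_eq_zero_iff (by omega) |>.1 h3))
    · refine hVAL K p q ρ ζo γo u M b hp (by omega) hζo' hM hb hpρ hMρ ?_ hid j
      intro 𝔓 h𝔓 _ hmem
      refine mem_of_int 𝔓 h𝔓 ρ G hG hGρ ?_
      rw [← hγo']
      exact Ideal.pow_mem_of_mem 𝔓 hmem p hp0
  have hreps : ∀ j : ℕ, ∃ f : 𝓞 K → 𝓞 K, (∀ x ∈ s.image (fun u : ℤ => (u : 𝓞 K) - ζo ^ j * γo),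
      f x ∈ s.image (fun u : ℤ => (u : 𝓞 K) - ζo ^ j * γo) ∧
        ∃ z : K, (x : K) = (f x : K) * z ^ q) ∧
      ((s.image (fun u : ℤ => (u : 𝓞 K) - ζo ^ j * γo)).image f).card ≤ ⌊Nb⌋₊ := by
    intro j
    have hall : ∀ x ∈ s.image (fun u : ℤ => (u : 𝓞 K) - ζo ^ j * γo), x ≠ 0 ∧ Val K q ρ x := by
      intro x hx
      rw [Finset.mem_image] at hx
      obtain ⟨u, hu, rfl⟩ := hx
      exact hval u hu j
    refine reps (s.image (fun u : ℤ => (u : 𝓞 K) - ζo ^ j * γo))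
      (fun x y => ∃ z : K, (x : K) = (y : K) * z ^ q) ?_ ?_ ⌊Nb⌋₊ ?_
    · intro x _
      exact ⟨1, by rw [one_pow, mul_one]⟩
    · rintro x hx y _ ⟨z, hz⟩
      have hz0 : z ≠ 0 := by
        rintro rfl
        rw [zero_pow (by omega), mul_zero] at hz
        exact (hall x hx).1 (RingOfIntegers.coe_eq_zero_iff.1 hz)
      refine ⟨z⁻¹, ?_⟩
      rw [hz, inv_pow, mul_assoc, mul_inv_cancel₀ (pow_ne_zero _ hz0), mul_one]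
    · intro t ht htt
      exact hclass' t (fun x hx => hall x (ht hx)) htt
  obtain ⟨f0, hf0, hf0c⟩ := hreps 0
  obtain ⟨f1, hf1, hf1c⟩ := hreps 1
  have hcomp : ∀ x : 𝓞 K, (ι.comp (algebraMap (𝓞 K) K)) x = ι (x : K) := fun x => rfl
  have hcard : s.card ≤ ⌊V⌋₊ * (s.image (fun u : ℤ =>
      (f0 ((u : 𝓞 K) - ζo ^ 0 * γo), f1 ((u : 𝓞 K) - ζo ^ 1 * γo)))).card := by
    refine Finset.card_le_mul_card_image s ⌊V⌋₊ ?_
    rintro ⟨r0, r1⟩ hr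
    rw [Finset.mem_image] at hr
    obtain ⟨u0, hu0, hu0e⟩ := hr
    simp only [Prod.mk.injEq] at hu0e
    have hr0 : r0 ∈ s.image (fun u : ℤ => (u : 𝓞 K) - ζo ^ 0 * γo) := by
      rw [← hu0e.1]
      exact (hf0 _ (Finset.mem_image_of_mem _ hu0)).1
    have hr1 : r1 ∈ s.image (fun u : ℤ => (u : 𝓞 K) - ζo ^ 1 * γo) := by
      rw [← hu0e.2]
      exact (hf1 _ (Finset.mem_image_of_mem _ hu0)).1
    rw [Finset.mem_image] at hr0 hr1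
    obtain ⟨a, -, ha⟩ := hr0
    obtain ⟨b, -, hb⟩ := hr1
    refine Nat.le_floor ?_
    refine hfib a b _ ?_
    intro u hu
    have hus : u ∈ s := (Finset.mem_filter.1 hu).1
    have hue := (Finset.mem_filter.1 hu).2
    simp only [Prod.mk.injEq] at hue
    refine ⟨(hs u hus).1, ?_, ?_⟩
    · obtain ⟨z, hz⟩ := (hf0 _ (Finset.mem_image_of_mem
        (fun u : ℤ => (u : 𝓞 K) - ζo ^ 0 * γo) hus)).2
      rw [hue.1, ← ha] at hz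
      refine ⟨z, ?_⟩
      have h1 := congrArg ι hz
      rw [map_mul, map_pow, ← hcomp, ← hcomp, map_sub, map_sub, map_mul, map_intCast,
        map_intCast, pow_zero, map_one, one_mul, hcomp] at h1
      exact h1
    · obtain ⟨z, hz⟩ := (hf1 _ (Finset.mem_image_of_mem
        (fun u : ℤ => (u : 𝓞 K) - ζo ^ 1 * γo) hus)).2
      rw [hue.2, ← hb] at hz
      refine ⟨z, ?_⟩
      have h1 := congrArg ι hz
      rw [map_mul, map_pow, ← hcomp, ← hcomp, map_sub, map_sub, map_mul, map_intCast,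
        map_intCast, pow_one, hcomp, hcomp] at h1
      exact h1
  have himg : (s.image (fun u : ℤ =>
      (f0 ((u : 𝓞 K) - ζo ^ 0 * γo), f1 ((u : 𝓞 K) - ζo ^ 1 * γo)))).card ≤
      ⌊Nb⌋₊ * ⌊Nb⌋₊ := by
    refine le_trans ?_ (Nat.mul_le_mul hf0c hf1c)
    rw [← Finset.card_product]
    refine Finset.card_le_card ?_
    intro x hx
    rw [Finset.mem_image] at hx
    obtain ⟨u, hu, rfl⟩ := hx
    exact Finset.mem_product.2 ⟨Finset.mem_image_of_mem _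
      (Finset.mem_image_of_mem (fun u : ℤ => (u : 𝓞 K) - ζo ^ 0 * γo) hu),
      Finset.mem_image_of_mem _ (Finset.mem_image_of_mem
        (fun u : ℤ => (u : 𝓞 K) - ζo ^ 1 * γo) hu)⟩
  have hNr := (Nat.floor_le hNb0).trans hNbK
  have hVr : ((⌊V⌋₊ : ℕ) : ℝ) ≤ V := Nat.floor_le hV
  calc (s.card : ℝ) ≤ ((⌊V⌋₊ * (⌊Nb⌋₊ * ⌊Nb⌋₊) : ℕ) : ℝ) := by
        exact_mod_cast hcard.trans (Nat.mul_le_mul_left _ himg)
    _ = (((⌊Nb⌋₊ : ℕ) : ℝ) * ((⌊Nb⌋₊ : ℕ) : ℝ)) * ((⌊V⌋₊ : ℕ) : ℝ) := by push_cast; ring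
    _ ≤ (_ * _) * V := by
        refine mul_le_mul (mul_le_mul hNr hNr (by positivity) (by positivity)) hVr
          (by positivity) (by positivity)
    _ = _ := by ring

end Pool.Agent.W232.FC
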