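import Pool.Agent.W232.FC.Stm

namespace Pool.Agent.W232.FC

open NumberField Classical

/-- an element of `𝓞 L` from a complex number -/
theorem mkInt (L : IntermediateField ℚ ℂ) {c : ℂ} (hc : c ∈ L) (hi : IsIntegral ℤ c) :
    ∃ x : 𝓞 L, ((x : L) : ℂ) = c := by
  have h : IsIntegral ℤ (⟨c, hc⟩ : L) :=
    (isIntegral_algHom_iff (L.val.restrictScalars ℤ) L.val.injective (x := (⟨c, hc⟩ : L))).1 hi
  exact ⟨⟨⟨c, hc⟩, h⟩, rfl⟩

theorem absNorm_le {L : Type} [Field L] [NumberField L] (x : 𝓞 L) (B : ℝ)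
    (h : ∀ σ : L →+* ℂ, ‖σ (x : L)‖ ≤ B) :
    (Ideal.absNorm (Ideal.span {x}) : ℝ) ≤ B ^ (Module.finrank ℚ L) := by
  rw [Ideal.absNorm_span_singleton]
  have h1 : (((Algebra.norm ℤ x).natAbs : ℕ) : ℝ) =
      ‖(algebraMap ℚ ℂ (Algebra.norm ℚ (x : L)))‖ := by
    rw [← Algebra.coe_norm_int, eq_ratCast, Complex.norm_ratCast, Nat.cast_natAbs]
    push_cast
    rfl
  rw [h1, Algebra.norm_eq_prod_embeddings, norm_prod]
  calc ∏ σ : L →ₐ[ℚ] ℂ, ‖σ (x : L)‖ ≤ ∏ _σ : L →ₐ[ℚ] ℂ, B := by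
        refine Finset.prod_le_prod (fun _ _ => norm_nonneg _) ?_
        intro σ _
        exact h σ.toRingHom
    _ = B ^ (Module.finrank ℚ L) := by
        rw [Finset.prod_const, Finset.card_univ, AlgHom.card]

/-- representatives of classes -/
theorem reps {α : Type} (s : Finset α) (r : α → α → Prop) (hrefl : ∀ x ∈ s, r x x)
    (hsymm : ∀ x ∈ s, ∀ y ∈ s, r x y → r y x) (N : ℕ)
    (h : ∀ t ⊆ s, (∀ x ∈ t, ∀ y ∈ t, x ≠ y → ¬ r x y) → t.card ≤ N) :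
    ∃ f : α → α, (∀ x ∈ s, f x ∈ s ∧ r x (f x)) ∧ (s.image f).card ≤ N := by
  obtain ⟨P, hP⟩ : ∃ P : Finset α → Prop, ∀ t, P t ↔ ∀ x ∈ t, ∀ y ∈ t, x ≠ y → ¬ r x y :=
    ⟨fun t => ∀ x ∈ t, ∀ y ∈ t, x ≠ y → ¬ r x y, fun t => Iff.rfl⟩
  obtain ⟨t, ht, hmax⟩ := Finset.exists_max_image (s.powerset.filter P) Finset.card
    ⟨∅, by rw [Finset.mem_filter, hP]; simp⟩
  rw [Finset.mem_filter, Finset.mem_powerset, hP] at ht
  have hex : ∀ x : α, ∃ y : α, x ∈ s → (y ∈ t ∧ r x y) := by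
    intro x
    by_cases hx : x ∈ s
    · by_contra hcon
      push Not at hcon
      have hc : ∀ y ∈ t, ¬ r x y := fun y hy => (hcon y).2 hy
      have hxt : x ∉ t := fun hxt => hc x hxt (hrefl x hx)
      have h2 : insert x t ∈ s.powerset.filter P := by
        rw [Finset.mem_filter, Finset.mem_powerset, hP]
        refine ⟨Finset.insert_subset hx ht.1, ?_⟩
        intro a ha b hb hab
        rw [Finset.mem_insert] at ha hb
        rcases ha with rfl | ha <;> rcases hb with rfl | hb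
        · exact absurd rfl hab
        · exact hc b hb
        · intro hr
          exact hc a ha (hsymm a (ht.1 ha) b hx hr)
        · exact ht.2 a ha b hb hab
      have h3 := hmax _ h2
      rw [Finset.card_insert_of_notMem hxt] at h3
      omega
    · exact ⟨x, fun hx' => absurd hx' hx⟩
  choose f hf using hex
  refine ⟨f, fun x hx => ⟨ht.1 (hf x hx).1, (hf x hx).2⟩, ?_⟩
  refine le_trans (Finset.card_le_card ?_) (h t ht.1 ht.2)
  intro a ha
  rw [Finset.mem_image] at ha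
  obtain ⟨x, hx, rfl⟩ := ha
  exact (hf x hx).1

/-- a prime ideal containing a nonzero integer `G` all of whose primes divide `ρ` contains `ρ` -/
theorem mem_of_int {L : Type} [Field L] [NumberField L] (𝔓 : Ideal (𝓞 L)) (h𝔓 : 𝔓.IsPrime)
    (ρ : ℕ) (G : ℤ) (hG : G ≠ 0) (hGρ : ∀ ℓ : ℕ, ℓ.Prime → (ℓ : ℤ) ∣ G → ℓ ∣ ρ)
    (h : (G : 𝓞 L) ∈ 𝔓) : (ρ : 𝓞 L) ∈ 𝔓 := by
  have h1 : ((G.natAbs : ℕ) : 𝓞 L) ∈ 𝔓 := by
    rcases Int.natAbs_eq G with e | e
    · have : ((G.natAbs : ℕ) : 𝓞 L) = (G : 𝓞 L) := by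
        conv_rhs => rw [e]
        simp
      rw [this]; exact h
    · have : ((G.natAbs : ℕ) : 𝓞 L) = -(G : 𝓞 L) := by
        conv_rhs => rw [e]
        simp
      rw [this]; exact 𝔓.neg_mem h
  have h2 : ∀ n : ℕ, n ≠ 0 → (∀ ℓ : ℕ, ℓ.Prime → ℓ ∣ n → ℓ ∣ ρ) → (n : 𝓞 L) ∈ 𝔓 →
      (ρ : 𝓞 L) ∈ 𝔓 := by
    intro n
    induction n using Nat.strong_induction_on with
    | _ n ih =>
      intro hn hd hm
      by_cases h1 : n = 1
      · subst h1
        exfalso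
        apply h𝔓.ne_top
        rw [Ideal.eq_top_iff_one]
        simpa using hm
      · obtain ⟨ℓ, hℓ, m, rfl⟩ := Nat.exists_prime_and_dvd h1
        have hm0 : m ≠ 0 := by
          rintro rfl
          simp at hn
        push_cast at hm
        rcases h𝔓.mem_or_mem hm with h3 | h3
        · obtain ⟨c, rfl⟩ := hd ℓ hℓ (dvd_mul_right _ _)
          push_cast
          exact 𝔓.mul_mem_right _ h3
        · exact ih m (by nlinarith [hℓ.two_le, Nat.pos_of_ne_zero hm0]) hm0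
            (fun ℓ' hℓ' hd' => hd ℓ' hℓ' (hd'.mul_left _)) h3
  refine h2 G.natAbs (Int.natAbs_ne_zero.2 hG) ?_ h1
  intro ℓ hℓ hd
  exact hGρ ℓ hℓ (Int.natCast_dvd.2 hd)

end Pool.Agent.W232.FC
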